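import Pool.Agent.EIN.GoodX
import Pool.Agent.COV.ViolI
import Pool.Agent.HD.Q1

/-!
# Almost all integral points are good
-/

set_option autoImplicit false

open Polynomial NumberField IntermediateField Module

namespace Pool.Agent.EIN

/-- One polynomial: almost all values have a large simple divisor. -/
theorem simple_int (k : Type) [Field k] [NumberField k] (φ : (𝓞 k)[X])
    (hφ : Irreducible (φ.map (algebraMap (𝓞 k) k))) (m : ℕ) (hm : 1 ≤ m)
    (hφm : φ.natDegree < 2 * m) (κ : ℝ) (hκ : 0 < κ) :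
    ∃ C δ : ℝ, 0 ≤ C ∧ 0 < δ ∧ ∀ T : ℝ, 0 ≤ T →
      {x : AlgebraicClosure k | IsIntegral ℤ x ∧
        finrank k (IntermediateField.adjoin k {x}) = m ∧
        AA.height x ≤ T ∧ aeval x (φ.map (algebraMap (𝓞 k) k)) ≠ 0 ∧
        ¬ ∃ c, OnePt.Simple (COV.zx φ x) c ∧ finrank ℚ (IntermediateField.adjoin k {x}) *
          ((φ.natDegree - κ) * AA.height x) ≤ Real.log (Ideal.absNorm c)}.Finite ∧
      ({x : AlgebraicClosure k | IsIntegral ℤ x ∧
        finrank k (IntermediateField.adjoin k {x}) = m ∧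
        AA.height x ≤ T ∧ aeval x (φ.map (algebraMap (𝓞 k) k)) ≠ 0 ∧
        ¬ ∃ c, OnePt.Simple (COV.zx φ x) c ∧ finrank ℚ (IntermediateField.adjoin k {x}) *
          ((φ.natDegree - κ) * AA.height x) ≤ Real.log (Ideal.absNorm c)}.ncard : ℝ) ≤
        C * Real.exp ((m - δ) * (finrank ℚ k * m) * T) := by
  obtain ⟨C, δ, hC, hδ, hg⟩ := good_int k φ hφ m hm hφm κ hκ
  refine ⟨C, δ, hC, hδ, fun T hT => ?_⟩
  obtain ⟨h1, h2⟩ := hg T hT
  have hsub : {x : AlgebraicClosure k | IsIntegral ℤ x ∧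
      finrank k (IntermediateField.adjoin k {x}) = m ∧
      AA.height x ≤ T ∧ aeval x (φ.map (algebraMap (𝓞 k) k)) ≠ 0 ∧
      ¬ ∃ c, OnePt.Simple (COV.zx φ x) c ∧ finrank ℚ (IntermediateField.adjoin k {x}) *
        ((φ.natDegree - κ) * AA.height x) ≤ Real.log (Ideal.absNorm c)} ⊆
      {x : AlgebraicClosure k | finrank k (IntermediateField.adjoin k {x}) = m ∧
        IsIntegral ℤ x ∧
        AA.height x ≤ T ∧ aeval x (φ.map (algebraMap (𝓞 k) k)) ≠ 0 ∧
        Real.log (SFD.sqx φ x) < finrank ℚ (IntermediateField.adjoin k {x}) *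
          ((φ.natDegree - κ) * AA.height x)} := by
    rintro x ⟨h0, h3, h4, h5, h6⟩
    refine ⟨h3, h0, h4, h5, ?_⟩
    by_contra h7
    apply h6
    obtain ⟨c, hc, hcn⟩ := OnePt.simple_of_norm (COV.zx φ x)
    refine ⟨c, hc, ?_⟩
    rw [hcn]
    exact not_lt.1 h7
  exact ⟨h1.subset hsub, (Nat.cast_le.2 (Set.ncard_le_ncard hsub h1)).trans h2⟩

/-- Few integral points have a field `k(x)` of small discriminant. -/
theorem disc_int (k : Type) [Field k] [NumberField k] (m : ℕ) (A' : ℝ)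
    (hA' : A' = 0 ∨ (0 < A' ∧ A' * HD.ex (finrank ℚ k) m < m - 1)) :
    ∃ C δ : ℝ, 0 ≤ C ∧ 0 < δ ∧ ∀ T : ℝ, 0 ≤ T →
    {x : AlgebraicClosure k | IsIntegral ℤ x ∧ finrank k (IntermediateField.adjoin k {x}) = m ∧
      AA.height x ≤ T ∧ AA.logDiscr x < A' * AA.height x}.Finite ∧
    ({x : AlgebraicClosure k | IsIntegral ℤ x ∧ finrank k (IntermediateField.adjoin k {x}) = m ∧
      AA.height x ≤ T ∧ AA.logDiscr x < A' * AA.height x}.ncard : ℝ) ≤
      C * Real.exp ((m - δ) * (finrank ℚ k * m) * T) := by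
  rcases hA' with h0 | ⟨hA0, hA1⟩
  · refine ⟨0, 1, le_rfl, one_pos, fun T _ => ?_⟩
    have he : {x : AlgebraicClosure k | IsIntegral ℤ x ∧
        finrank k (IntermediateField.adjoin k {x}) = m ∧
        AA.height x ≤ T ∧ AA.logDiscr x < A' * AA.height x} = ∅ := by
      rw [Set.eq_empty_iff_forall_notMem]
      rintro x ⟨-, -, -, h⟩
      rw [h0, zero_mul] at h
      have h1 : 0 ≤ AA.logDiscr x := AA.UpperAux.logDisc_nonneg _
      linarith
    rw [he, Set.ncard_empty, Nat.cast_zero, zero_mul]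
    exact ⟨Set.finite_empty, le_rfl⟩
  · set η : ℝ := ((m : ℝ) - 1 - A' * HD.ex (finrank ℚ k) m) / 2 with hη
    have hη0 : 0 < η := by
      rw [hη]
      linarith
    have key : ∀ N : ℕ, 0 < N → ∃ C : ℝ, 1 ≤ C ∧ ∀ (K : Type) [Field K] [NumberField K],
        finrank ℚ K = N → ∀ T : ℝ, 0 ≤ T →
        {x : K | (True → IsIntegral ℤ x) ∧ SST.ht K x ≤ T}.Finite ∧
        ({x : K | (True → IsIntegral ℤ x) ∧ SST.ht K x ≤ T}.ncard : ℝ) ≤
          C * Real.exp ((1 + η) * N * T) := by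
      intro N hN
      obtain ⟨C, hC, h⟩ := HD.card_int_le N hN η hη0
      refine ⟨C, hC, fun K _ _ hK T hT => ?_⟩
      simp only [true_imp_iff]
      exact h K hK T hT
    obtain ⟨C, hC, h⟩ := HD.badX_le k True (1 + η) (by linarith) key A' 0 hA0.le le_rfl m
    refine ⟨C, η, hC, hη0, fun T hT => ?_⟩
    obtain ⟨h1, h2⟩ := h T hT
    have hsub : {x : AlgebraicClosure k | IsIntegral ℤ x ∧
        finrank k (IntermediateField.adjoin k {x}) = m ∧
        AA.height x ≤ T ∧ AA.logDiscr x < A' * AA.height x} ⊆ HD.badX k True A' 0 m T := by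
      rintro x ⟨h0, h3, h4, h5⟩
      exact ⟨fun _ => h0, h3.le, h4, by linarith⟩
    refine ⟨h1.subset hsub, ?_⟩
    have h3 : (m : ℝ) - η = A' * HD.ex (finrank ℚ k) m + (1 + η) := by
      rw [hη]
      ring
    rw [h3]
    exact (Nat.cast_le.2 (Set.ncard_le_ncard hsub h1)).trans h2

/-- Almost all integral points are good. -/
theorem bad_x_int (k : Type) [Field k] [NumberField k] {r : ℕ} (fs : Fin r → (𝓞 k)[X])
    (hirr : ∀ i, Irreducible ((fs i).map (algebraMap (𝓞 k) k))) (m : ℕ) (hm : 1 ≤ m)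
    (hdeg : ∀ i, (fs i).natDegree < 2 * m) (A' : ℝ)
    (hA' : A' = 0 ∨ (0 < A' ∧ A' * HD.ex (finrank ℚ k) m < m - 1)) (κ h₀ : ℝ)
    (hκ : 0 < κ) (hh₀ : 0 ≤ h₀) : ∃ C δ : ℝ, 0 ≤ C ∧ 0 < δ ∧ ∀ T : ℝ, 0 ≤ T →
      {x : AlgebraicClosure k | IsIntegral ℤ x ∧
        finrank k (IntermediateField.adjoin k {x}) = m ∧
        AA.height x ≤ T ∧ ¬ COV.GoodI fs A' κ h₀ x}.Finite ∧
      ({x : AlgebraicClosure k | IsIntegral ℤ x ∧
        finrank k (IntermediateField.adjoin k {x}) = m ∧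
        AA.height x ≤ T ∧ ¬ COV.GoodI fs A' κ h₀ x}.ncard : ℝ) ≤
        C * Real.exp ((m - δ) * (finrank ℚ k * m) * T) := by
  classical
  set d := finrank ℚ k with hd
  choose C₁ δ₁ hC₁ hδ₁ hgood using fun i => simple_int k (fs i) (hirr i) m hm (hdeg i) κ hκ
  obtain ⟨C₂, δ₂, hC₂, hδ₂, hdisc⟩ := disc_int k m A' hA'
  set ν : ℝ := (1 + ∑ i, (δ₁ i)⁻¹)⁻¹ with hν
  have hsum0 : 0 ≤ ∑ i, (δ₁ i)⁻¹ := Finset.sum_nonneg fun i _ => (inv_pos.2 (hδ₁ i)).le
  have hν0 : 0 < ν := by positivity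
  have hν1 : ν ≤ 1 := by
    rw [hν]
    exact inv_le_one_of_one_le₀ (by linarith)
  have hνi : ∀ i, ν ≤ δ₁ i := by
    intro i
    have h1 : (δ₁ i)⁻¹ ≤ ∑ i, (δ₁ i)⁻¹ :=
      Finset.single_le_sum (f := fun i => (δ₁ i)⁻¹) (fun i _ => (inv_pos.2 (hδ₁ i)).le)
        (Finset.mem_univ i)
    rw [hν, inv_le_comm₀ (by positivity) (hδ₁ i)]
    linarith
  set δ : ℝ := min δ₂ ν with hδ
  have hδ0 : 0 < δ := lt_min hδ₂ hν0
  have hδν : δ ≤ ν := min_le_right _ _
  have hHf := SFD.bounded_finite k m hm h₀ hh₀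
  set Hs : Set (AlgebraicClosure k) := {x : AlgebraicClosure k |
      finrank k (IntermediateField.adjoin k {x}) = m ∧ AA.height x ≤ h₀} with hHs
  set Rt : Set (AlgebraicClosure k) :=
    {x | aeval x (∏ i, (fs i).map (algebraMap (𝓞 k) k)) = 0} with hRt
  have hf0 : ∏ i, (fs i).map (algebraMap (𝓞 k) k) ≠ 0 :=
    Finset.prod_ne_zero_iff.2 fun i _ => (hirr i).ne_zero
  have hinj : Function.Injective (algebraMap k (AlgebraicClosure k)) :=
    (algebraMap k (AlgebraicClosure k)).injective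
  have hRsub : Rt ⊆ (((∏ i, (fs i).map (algebraMap (𝓞 k) k)).map
      (algebraMap k (AlgebraicClosure k))).roots.toFinset : Set (AlgebraicClosure k)) := by
    intro x hx
    rw [Finset.mem_coe, Multiset.mem_toFinset, mem_roots ((Polynomial.map_ne_zero_iff hinj).2 hf0),
      IsRoot.def, eval_map_algebraMap]
    exact hx
  have hRf : Rt.Finite := (Finset.finite_toSet _).subset hRsub
  refine ⟨Rt.ncard + Hs.ncard + C₂ + ∑ i, C₁ i, δ, by
    have : 0 ≤ ∑ i, C₁ i := Finset.sum_nonneg fun i _ => hC₁ i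
    positivity, hδ0, fun T hT => ?_⟩
  set E : ℝ := Real.exp ((m - δ) * (d * m) * T) with hE
  have hm0 : (1 : ℝ) ≤ m := by exact_mod_cast hm
  have hE1 : 1 ≤ E := by
    refine Real.one_le_exp ?_
    have : 0 ≤ (m : ℝ) - δ := by linarith
    positivity
  have hEmono : ∀ δ' : ℝ, δ ≤ δ' → Real.exp ((m - δ') * (d * m) * T) ≤ E := by
    intro δ' h
    refine Real.exp_le_exp.2 ?_
    refine mul_le_mul_of_nonneg_right (mul_le_mul_of_nonneg_right (by linarith) (by positivity))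
      hT
  obtain ⟨fD, cD⟩ := hdisc T hT
  set D : Set (AlgebraicClosure k) := {x : AlgebraicClosure k | IsIntegral ℤ x ∧
      finrank k (IntermediateField.adjoin k {x}) = m ∧
        AA.height x ≤ T ∧ AA.logDiscr x < A' * AA.height x} with hD
  let S : Fin r → Set (AlgebraicClosure k) := fun i =>
    {x : AlgebraicClosure k | IsIntegral ℤ x ∧
        finrank k (IntermediateField.adjoin k {x}) = m ∧
        AA.height x ≤ T ∧ aeval x ((fs i).map (algebraMap (𝓞 k) k)) ≠ 0 ∧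
        ¬ ∃ c, OnePt.Simple (COV.zx (fs i) x) c ∧ finrank ℚ (IntermediateField.adjoin k {x}) *
          (((fs i).natDegree - κ) * AA.height x) ≤ Real.log (Ideal.absNorm c)}
  have fS : ∀ i, (S i).Finite := fun i => (hgood i T hT).1
  have cS : ∀ i ∈ (Finset.univ : Finset (Fin r)), ((S i).ncard : ℝ) ≤ C₁ i * E := fun i _ =>
    ((hgood i T hT).2).trans
      (mul_le_mul_of_nonneg_left (hEmono _ (hδν.trans (hνi i))) (hC₁ i))
  set U : Set (AlgebraicClosure k) := (Rt ∪ Hs) ∪ (D ∪ ⋃ i ∈ (Finset.univ : Finset (Fin r)), S i)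
    with hU
  have fU : U.Finite := (hRf.union hHf).union
    (fD.union (Set.Finite.biUnion Finset.univ.finite_toSet fun i _ => fS i))
  have cU : (U.ncard : ℝ) ≤ (Rt.ncard + Hs.ncard + C₂ + ∑ i, C₁ i) * E := by
    have g1 : U.ncard ≤ (Rt.ncard + Hs.ncard) + (D.ncard + ∑ i, (S i).ncard) :=
      (Set.ncard_union_le _ _).trans (add_le_add (Set.ncard_union_le _ _)
        ((Set.ncard_union_le _ _).trans
          (Nat.add_le_add_left (Finset.set_ncard_biUnion_le _ _) _)))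
    have g2 : (U.ncard : ℝ) ≤ (Rt.ncard + Hs.ncard) + (D.ncard + ∑ i, ((S i).ncard : ℝ)) := by
      exact_mod_cast g1
    have g3 : ∑ i, ((S i).ncard : ℝ) ≤ ∑ i, C₁ i * E := Finset.sum_le_sum cS
    rw [← Finset.sum_mul] at g3
    have g4 : (D.ncard : ℝ) ≤ C₂ * E :=
      cD.trans (mul_le_mul_of_nonneg_left (hEmono _ (min_le_left _ _)) hC₂)
    have g5 : (Rt.ncard : ℝ) + Hs.ncard ≤ (Rt.ncard + Hs.ncard) * E :=
      le_mul_of_one_le_right (by positivity) hE1
    calc (U.ncard : ℝ) ≤ (Rt.ncard + Hs.ncard) + (D.ncard + ∑ i, ((S i).ncard : ℝ)) := g2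
      _ ≤ (Rt.ncard + Hs.ncard) * E + (C₂ * E + (∑ i, C₁ i) * E) :=
          add_le_add g5 (add_le_add g4 g3)
      _ = _ := by ring
  have hsub : {x : AlgebraicClosure k | IsIntegral ℤ x ∧
      finrank k (IntermediateField.adjoin k {x}) = m ∧
      AA.height x ≤ T ∧ ¬ COV.GoodI fs A' κ h₀ x} ⊆ U := by
    rintro x ⟨hx0, hx1, hx2, hx3⟩
    by_contra hcon
    simp only [hU, Set.mem_union, not_or, Set.mem_iUnion, not_exists] at hcon
    obtain ⟨⟨n1, n2⟩, n3, n4⟩ := hcon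
    apply hx3
    refine ⟨?_, ?_, fun i => ?_⟩
    · by_contra g
      exact n2 ⟨hx1, not_lt.1 g⟩
    · by_contra g
      exact n3 ⟨hx0, hx1, hx2, not_le.1 g⟩
    · by_contra g
      refine n4 i (Finset.mem_univ i) ⟨hx0, hx1, hx2, fun h => n1 ?_, g⟩
      change aeval x (∏ i, (fs i).map (algebraMap (𝓞 k) k)) = 0
      rw [map_prod]
      exact Finset.prod_eq_zero (Finset.mem_univ i) h
  exact ⟨fU.subset hsub, (Nat.cast_le.2 (Set.ncard_le_ncard hsub fU)).trans cU⟩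

end Pool.Agent.EIN
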