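import Pool.Agent.SFD.CountW
import Pool.Agent.SS.Ideals
import Pool.Agent.AA.Upper

/-!
# Vectors of integers in boxes which depend on the places
-/

set_option autoImplicit false

open Polynomial NumberField IntermediateField Module

namespace Pool.Agent.EIN

/-- one real coordinate for every embedding -/
private noncomputable def coordI {K : Type} [Field K] [NumberField K] (φ : K →+* ℂ) (a : K) : ℝ :=
  open Classical in if φ = (InfinitePlace.mk φ).embedding then (φ a).re else (φ a).im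

private theorem coordI_sub {K : Type} [Field K] [NumberField K] (φ : K →+* ℂ) (a b : K) :
    coordI φ (a - b) = coordI φ a - coordI φ b := by
  unfold coordI
  split_ifs
  · rw [map_sub, Complex.sub_re]
  · rw [map_sub, Complex.sub_im]

private theorem abs_coordI {K : Type} [Field K] [NumberField K] (φ : K →+* ℂ) (a : K) :
    |coordI φ a| ≤ (InfinitePlace.mk φ) a := by
  rw [InfinitePlace.apply]
  unfold coordI
  split_ifs
  · exact Complex.abs_re_le_norm _
  · exact Complex.abs_im_le_norm _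

private theorem lt_of_coordI {K : Type} [Field K] [NumberField K] (a : K) (t : ℝ) (ht : 0 < t)
    (w : InfinitePlace K)
    (h : ∀ φ : K →+* ℂ, InfinitePlace.mk φ = w → |coordI φ a| < t / 2) : w a < t := by
  classical
  have hre : |(w.embedding a).re| < t / 2 := by
    have := h w.embedding (InfinitePlace.mk_embedding w)
    unfold coordI at this
    rwa [InfinitePlace.mk_embedding, if_pos rfl] at this
  have him : |(w.embedding a).im| < t / 2 := by
    by_cases hw : w.IsReal
    · have h1 := InfinitePlace.isReal_iff.1 hw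
      have h2 : starRingEnd ℂ (w.embedding a) = w.embedding a := by
        have := RingHom.congr_fun h1 a
        rwa [ComplexEmbedding.conjugate_coe_eq] at this
      rw [Complex.conj_eq_iff_im] at h2
      rw [h2, abs_zero]
      linarith
    · have h1 : ¬ ComplexEmbedding.IsReal w.embedding := fun h2 => hw (InfinitePlace.isReal_iff.2 h2)
      have h3 : ComplexEmbedding.conjugate w.embedding ≠ w.embedding := h1
      have := h (ComplexEmbedding.conjugate w.embedding) (by
        rw [InfinitePlace.mk_conjugate_eq, InfinitePlace.mk_embedding])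
      unfold coordI at this
      rw [InfinitePlace.mk_conjugate_eq, InfinitePlace.mk_embedding, if_neg h3,
        ComplexEmbedding.conjugate_coe_eq, Complex.conj_im, abs_neg] at this
      exact this
  rw [← InfinitePlace.norm_embedding_eq w a]
  have h1 : ‖w.embedding a‖ ^ 2 < t ^ 2 := by
    rw [Complex.sq_norm, Complex.normSq_apply]
    have h2 := abs_lt.1 hre
    have h3 := abs_lt.1 him
    nlinarith [mul_self_lt_mul_self (abs_nonneg (w.embedding a).re) hre,
      mul_self_lt_mul_self (abs_nonneg (w.embedding a).im) him,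
      abs_mul_abs_self (w.embedding a).re, abs_mul_abs_self (w.embedding a).im]
  exact lt_of_pow_lt_pow_left₀ 2 ht.le h1

/-- Cells: the size of the box depends on the place and the mesh on the coordinate. -/
theorem cells_v {k : Type} [Field k] [NumberField k] {ι α : Type} [Fintype ι] (s : α → ι → k)
    (R : InfinitePlace k → ℝ) (θ : ι → ℝ) (hR : ∀ v, 0 < R v) (hθ : ∀ i, 0 < θ i)
    (hθ1 : ∀ i, θ i ≤ 1) (S : Set α)
    (hS : ∀ a ∈ S, ∀ i, ∀ v : InfinitePlace k, v (s a i) ≤ R v)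
    (hinj : ∀ a ∈ S, ∀ b ∈ S,
      (∀ i, ∀ v : InfinitePlace k, v (s a i - s b i) < θ i * R v) → a = b) :
    S.Finite ∧ (S.ncard : ℝ) ≤ ∏ i, (8 / θ i) ^ finrank ℚ k := by
  classical
  have ht : ∀ (i : ι) (φ : k →+* ℂ), 0 < θ i * R (InfinitePlace.mk φ) :=
    fun i φ => mul_pos (hθ i) (hR _)
  set F : Finset ((i : ι) → (k →+* ℂ) → ℤ) :=
    Fintype.piFinset fun i => Fintype.piFinset fun _ =>
      Finset.Ico (-⌈2 / θ i⌉ - 1) (⌈2 / θ i⌉ + 1) with hF
  have hquot : ∀ (i : ι) (φ : k →+* ℂ),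
      2 * R (InfinitePlace.mk φ) / (θ i * R (InfinitePlace.mk φ)) = 2 / θ i := by
    intro i φ
    have h1 := (hR (InfinitePlace.mk φ)).ne'
    have h2 := (hθ i).ne'
    field_simp
  have hmaps : ∀ a ∈ S, (fun (i : ι) (φ : k →+* ℂ) =>
      ⌊2 * coordI φ (s a i) / (θ i * R (InfinitePlace.mk φ))⌋) ∈ (F : Set _) := by
    intro a ha
    rw [Finset.mem_coe, hF, Fintype.mem_piFinset]
    intro i
    rw [Fintype.mem_piFinset]
    intro φ
    have h1 := abs_le.1 ((abs_coordI φ (s a i)).trans (hS a ha i (InfinitePlace.mk φ)))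
    have h2 := Int.le_ceil (2 / θ i)
    have h3 : 2 * coordI φ (s a i) / (θ i * R (InfinitePlace.mk φ)) ≤ 2 / θ i := by
      rw [← hquot i φ]
      exact div_le_div_of_nonneg_right (by linarith [h1.2]) (ht i φ).le
    have h4 : -(2 / θ i) ≤ 2 * coordI φ (s a i) / (θ i * R (InfinitePlace.mk φ)) := by
      rw [← hquot i φ, ← neg_div]
      exact div_le_div_of_nonneg_right (by linarith [h1.1]) (ht i φ).le
    rw [Finset.mem_Ico, Int.le_floor, Int.floor_lt]
    push_cast
    constructor <;> linarith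
  have hinj' : Set.InjOn (fun (a : α) (i : ι) (φ : k →+* ℂ) =>
      ⌊2 * coordI φ (s a i) / (θ i * R (InfinitePlace.mk φ))⌋) S := by
    intro a ha b hb hab
    refine hinj a ha b hb fun i w => ?_
    refine lt_of_coordI _ (θ i * R w) (mul_pos (hθ i) (hR w)) w (fun φ hφ => ?_)
    have h2 : ⌊2 * coordI φ (s a i) / (θ i * R (InfinitePlace.mk φ))⌋ =
        ⌊2 * coordI φ (s b i) / (θ i * R (InfinitePlace.mk φ))⌋ := congrFun (congrFun hab i) φ
    have h4 := Int.abs_sub_lt_one_of_floor_eq_floor h2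
    rw [← sub_div, abs_div, abs_of_pos (ht i φ), div_lt_one (ht i φ), ← mul_sub, abs_mul,
      abs_two, ← coordI_sub, hφ] at h4
    linarith
  have hfin : S.Finite := Set.Finite.of_injOn hmaps hinj' F.finite_toSet
  refine ⟨hfin, ?_⟩
  have h1 : S.ncard ≤ F.card := by
    rw [← Set.ncard_coe_finset]
    exact Set.ncard_le_ncard_of_injOn _ hmaps hinj' F.finite_toSet
  have h2 : (F.card : ℝ) ≤ ∏ i, (8 / θ i) ^ finrank ℚ k := by
    rw [hF, Fintype.card_piFinset, Nat.cast_prod]
    refine Finset.prod_le_prod (fun i _ => Nat.cast_nonneg _) fun i _ => ?_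
    rw [Fintype.card_piFinset, Finset.prod_const, Finset.card_univ, Int.card_Ico,
      Embeddings.card, Nat.cast_pow]
    refine pow_le_pow_left₀ (Nat.cast_nonneg _) ?_ _
    have h3 : (0 : ℤ) ≤ ⌈2 / θ i⌉ := Int.ceil_nonneg (by have := hθ i; positivity)
    have h4 : (((⌈2 / θ i⌉ + 1 - (-⌈2 / θ i⌉ - 1)).toNat : ℕ) : ℝ) =
        ((⌈2 / θ i⌉ + 1 - (-⌈2 / θ i⌉ - 1) : ℤ) : ℝ) := by
      exact_mod_cast Int.toNat_of_nonneg (by linarith)
    rw [h4]
    push_cast
    have h5 := Int.ceil_lt_add_one (2 / θ i)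
    have h6 : 1 ≤ 1 / θ i := by
      rw [le_div_iff₀ (hθ i), one_mul]
      exact hθ1 i
    have h7 : 2 / θ i = 2 * (1 / θ i) := by ring
    have h8 : 8 / θ i = 8 * (1 / θ i) := by ring
    rw [h7] at h5 ⊢
    rw [h8]
    linarith
  exact (Nat.cast_le.2 h1).trans h2

/-- the volume of a box -/
noncomputable def Vol {k : Type} [Field k] [NumberField k] (R : InfinitePlace k → ℝ) : ℝ :=
  ∏ φ : k →+* ℂ, R (InfinitePlace.mk φ)

/-- the product over the extensions of the embeddings -/
theorem prod_comp {k M : Type} [Field k] [NumberField k] [Field M] [NumberField M] [Algebra k M]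
    (f : (k →+* ℂ) → ℝ) :
    ∏ σ : M →+* ℂ, f (σ.comp (algebraMap k M)) = (∏ ρ, f ρ) ^ finrank k M := by
  classical
  rw [← Finset.prod_pow, ← Fintype.prod_fiberwise (fun σ : M →+* ℂ => σ.comp (algebraMap k M))
    (fun σ => f (σ.comp (algebraMap k M)))]
  refine Finset.prod_congr rfl fun ρ _ => ?_
  have h1 : ∀ σ : {σ : M →+* ℂ // σ.comp (algebraMap k M) = ρ},
      f (σ.1.comp (algebraMap k M)) = f ρ := fun σ => by rw [σ.2]
  rw [Finset.prod_congr rfl fun σ _ => h1 σ, Finset.prod_const, Finset.card_univ]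
  congr 1
  let _ := ρ.toAlgebra
  have hfd : FiniteDimensional k M := FiniteDimensional.right ℚ k M
  let e : (M →ₐ[k] ℂ) ≃ {σ : M →+* ℂ // σ.comp (algebraMap k M) = ρ} :=
    { toFun := fun σ => ⟨(σ : M →+* ℂ), by
        ext a
        exact σ.commutes a⟩
      invFun := fun σ => { σ.1 with
        commutes' := fun a => RingHom.congr_fun σ.2 a }
      left_inv := fun σ => by
        ext a
        rfl
      right_inv := fun σ => by
        apply Subtype.ext
        ext a
        rfl }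
  rw [← Fintype.card_congr e, AlgHom.card]

/-- the norm of an ideal with an element in a box -/
theorem absNorm_le_v {k M : Type} [Field k] [NumberField k] [Field M] [NumberField M]
    [Algebra k M] (w : Ideal (𝓞 M)) (z : 𝓞 M) (hz : z ≠ 0) (hmem : z ∈ w) (c : ℝ)
    (R : InfinitePlace k → ℝ)
    (h : ∀ σ : M →+* ℂ, ‖σ (z : M)‖ ≤ c * R (InfinitePlace.mk (σ.comp (algebraMap k M)))) :
    (Ideal.absNorm w : ℝ) ≤ c ^ finrank ℚ M * Vol R ^ finrank k M := by
  have h1 : (Ideal.absNorm w : ℤ) ∣ Algebra.norm ℤ z := Ideal.absNorm_dvd_norm_of_mem hmem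
  have h2 : Algebra.norm ℤ z ≠ 0 := Algebra.norm_ne_zero_iff.2 hz
  have h3 : (Ideal.absNorm w : ℤ) ≤ |Algebra.norm ℤ z| :=
    Int.le_of_dvd (abs_pos.2 h2) ((dvd_abs _ _).2 h1)
  have h4 : (Ideal.absNorm w : ℝ) ≤ |((Algebra.norm ℤ z : ℤ) : ℝ)| := by
    exact_mod_cast h3
  have h5 := SST.prodK_norm_prod ℂ z
  rw [Complex.norm_intCast] at h5
  rw [← h5] at h4
  refine h4.trans ((Finset.prod_le_prod (fun σ _ => norm_nonneg _) fun σ _ => h σ).trans
    (le_of_eq ?_))
  rw [Finset.prod_mul_distrib, Finset.prod_const, Finset.card_univ, Embeddings.card,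
    prod_comp (M := M) (fun ρ : k →+* ℂ => R (InfinitePlace.mk ρ))]
  rfl

/-- the size of a value -/
theorem size_v {k M : Type} [Field k] [NumberField k] [Field M] [NumberField M] [Algebra k M]
    {m : ℕ} (u : Fin m → 𝓞 M) : ∃ C : ℝ, 1 ≤ C ∧ ∀ (F : Fin m → 𝓞 k)
      (R : InfinitePlace k → ℝ), (∀ v, 0 ≤ R v) →
      (∀ i, ∀ v : InfinitePlace k, v (F i : k) ≤ R v) → ∀ σ : M →+* ℂ, ‖σ (SFD.val u F : M)‖ ≤
        C * R (InfinitePlace.mk (σ.comp (algebraMap k M))) := by
  refine ⟨1 + ∑ σ : M →+* ℂ, ∑ i, ‖σ (u i : M)‖, ?_, ?_⟩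
  · have : 0 ≤ ∑ σ : M →+* ℂ, ∑ i, ‖σ (u i : M)‖ :=
      Finset.sum_nonneg fun w _ => Finset.sum_nonneg fun i _ => norm_nonneg _
    linarith
  intro F R hR0 hF σ
  set v := InfinitePlace.mk (σ.comp (algebraMap k M)) with hv
  have hR : 0 ≤ R v := hR0 v
  have h1 : (SFD.val u F : M) = ∑ i, algebraMap k M (F i : k) * (u i : M) := by
    unfold SFD.val
    rw [RingOfIntegers.coe_eq_algebraMap, map_sum]
    refine Finset.sum_congr rfl fun i _ => ?_
    rw [map_mul]
    rfl
  have h2 : ‖σ (SFD.val u F : M)‖ ≤ ∑ i, R v * ‖σ (u i : M)‖ := by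
    rw [h1, map_sum]
    refine (norm_sum_le _ _).trans (Finset.sum_le_sum fun i _ => ?_)
    rw [map_mul, norm_mul]
    refine mul_le_mul_of_nonneg_right ?_ (norm_nonneg _)
    exact hF i v
  rw [← Finset.mul_sum] at h2
  have h4 : ∑ i, ‖σ (u i : M)‖ ≤ ∑ σ : M →+* ℂ, ∑ i, ‖σ (u i : M)‖ :=
    Finset.single_le_sum (f := fun σ : M →+* ℂ => ∑ i, ‖σ (u i : M)‖)
      (fun w _ => Finset.sum_nonneg fun i _ => norm_nonneg _) (Finset.mem_univ σ)
  calc ‖σ (SFD.val u F : M)‖ ≤ R v * ∑ i, ‖σ (u i : M)‖ := h2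
    _ ≤ R v * (1 + ∑ σ : M →+* ℂ, ∑ i, ‖σ (u i : M)‖) :=
        mul_le_mul_of_nonneg_left (by linarith) hR
    _ = _ := mul_comm _ _

end Pool.Agent.EIN
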