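import Pool.Agent.EIN.Cells

/-!
# Vectors in a box whose value lies in an ideal
-/

set_option autoImplicit false

open Polynomial NumberField IntermediateField Module

namespace Pool.Agent.EIN

/-- an integer which is small in the sense of the volume is zero -/
theorem eq_zero_of_small {k : Type} [Field k] [NumberField k] (z : 𝓞 k)
    (R : InfinitePlace k → ℝ) (θ : ℝ) (hθ : θ ^ finrank ℚ k * Vol R ≤ 1)
    (h : ∀ v : InfinitePlace k, v (z : k) < θ * R v) : z = 0 := by
  by_contra hz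
  have h5 := SST.prodK_norm_prod ℂ z
  rw [Complex.norm_intCast] at h5
  have h2 : Algebra.norm ℤ z ≠ 0 := Algebra.norm_ne_zero_iff.2 hz
  have h3 : (1 : ℝ) ≤ |((Algebra.norm ℤ z : ℤ) : ℝ)| := by
    exact_mod_cast Int.one_le_abs h2
  rw [← h5] at h3
  have hzk : (z : k) ≠ 0 := fun h0 => hz (RingOfIntegers.ext h0)
  have h4 : ∏ σ : k →+* ℂ, ‖σ (z : k)‖ < ∏ σ : k →+* ℂ, (θ * R (InfinitePlace.mk σ)) := by
    refine Finset.prod_lt_prod_of_nonempty (fun σ _ => ?_) (fun σ _ => ?_) ?_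
    · rw [norm_pos_iff]
      exact (map_ne_zero σ).2 hzk
    · exact h (InfinitePlace.mk σ)
    · have : Nonempty (k →+* ℂ) := inferInstance
      exact Finset.univ_nonempty
  rw [Finset.prod_mul_distrib, Finset.prod_const, Finset.card_univ, Embeddings.card] at h4
  have h6 : θ ^ finrank ℚ k * ∏ σ : k →+* ℂ, R (InfinitePlace.mk σ) ≤ 1 := hθ
  linarith

private theorem card_lt (m j : ℕ) (hj : j ≤ m) :
    (Finset.univ.filter fun i : Fin m => (i : ℕ) < j).card = j := by
  rw [← Fintype.card_subtype]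
  have e : {i : Fin m // (i : ℕ) < j} ≃ Fin j :=
    { toFun := fun i => ⟨i.1, i.2⟩
      invFun := fun i => ⟨⟨i.1, lt_of_lt_of_le i.2 hj⟩, i.2⟩
      left_inv := fun i => rfl
      right_inv := fun i => rfl }
  rw [Fintype.card_congr e, Fintype.card_fin]

private theorem card_ge (m j : ℕ) (hj : j ≤ m) :
    (Finset.univ.filter fun i : Fin m => ¬ (i : ℕ) < j).card = m - j := by
  have h1 := Finset.card_filter_add_card_filter_not (s := (Finset.univ : Finset (Fin m)))
    (fun i => (i : ℕ) < j)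
  rw [card_lt m j hj, Finset.card_univ, Fintype.card_fin] at h1
  omega

/-- the box -/
def Box (k : Type) [Field k] [NumberField k] (m : ℕ) (R : InfinitePlace k → ℝ) :
    Set (Fin m → 𝓞 k) := {F | ∀ i, ∀ v : InfinitePlace k, v (F i : k) ≤ R v}

theorem one_le_vol {k : Type} [Field k] [NumberField k] (R : InfinitePlace k → ℝ)
    (hR : ∀ v, 1 ≤ R v) : 1 ≤ Vol R := by
  unfold Vol
  have h1 : ∏ φ : k →+* ℂ, (1 : ℝ) ≤ ∏ φ : k →+* ℂ, R (InfinitePlace.mk φ) :=
    Finset.prod_le_prod (fun _ _ => zero_le_one) fun _ _ => hR _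
  rwa [Finset.prod_const_one] at h1

/-- The number of the vectors in a box. -/
theorem card_box {k : Type} [Field k] [NumberField k] (m : ℕ) (R : InfinitePlace k → ℝ)
    (hR : ∀ v, 1 ≤ R v) : (Box k m R).Finite ∧
      ((Box k m R).ncard : ℝ) ≤ 8 ^ (finrank ℚ k * m) * Vol R ^ m := by
  classical
  set d := finrank ℚ k with hd
  have hd0 : 0 < d := finrank_pos
  have hV1 := one_le_vol R hR
  set V := Vol R with hV
  have hV0 : 0 < V := lt_of_lt_of_le one_pos hV1
  set θ : ℝ := V ^ (-(1 : ℝ) / d) with hθ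
  have hθ0 : 0 < θ := Real.rpow_pos_of_pos hV0 _
  have hθd : θ ^ d = V⁻¹ := by
    rw [hθ, ← Real.rpow_natCast, ← Real.rpow_mul hV0.le, div_mul_cancel₀ _
      (by exact_mod_cast hd0.ne'), Real.rpow_neg_one]
  have hθ1 : θ ≤ 1 := by
    refine Real.rpow_le_one_of_one_le_of_nonpos hV1 ?_
    have : (0 : ℝ) < d := by exact_mod_cast hd0
    rw [neg_div]
    have : 0 ≤ 1 / (d : ℝ) := by positivity
    linarith
  obtain ⟨h1, h2⟩ := cells_v (fun (F : Fin m → 𝓞 k) i => (F i : k)) R (fun _ => θ)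
    (fun v => lt_of_lt_of_le one_pos (hR v)) (fun _ => hθ0) (fun _ => hθ1) (Box k m R)
    (fun F hF => hF) (fun F _ F' _ hFF => by
      funext i
      have h3 : F i - F' i = 0 := eq_zero_of_small (F i - F' i) R θ (by
        rw [← hd, hθd, ← hV, inv_mul_cancel₀ hV0.ne']) fun v => hFF i v
      exact sub_eq_zero.1 h3)
  refine ⟨h1, h2.trans (le_of_eq ?_)⟩
  rw [Finset.prod_const, Finset.card_univ, Fintype.card_fin, div_pow, hθd, div_inv_eq_mul,
    mul_pow, ← pow_mul]

/-- The number of the vectors whose value is a nonzero element of an ideal. -/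
theorem count_v {k M : Type} [Field k] [NumberField k] [Field M] [NumberField M] [Algebra k M]
    {m : ℕ} (u : Fin m → 𝓞 M) (a : 𝓞 M) (j : ℕ) (hj : j ≤ m)
    (hu : LinearIndependent k (fun i : Fin j => (u (Fin.castLE hj i) : M))) :
    ∃ C C' : ℝ, 0 < C ∧ 0 < C' ∧ ∀ (w : Ideal (𝓞 M)) (R : InfinitePlace k → ℝ),
      (∀ v, 1 ≤ R v) →
      ({F | F ∈ Box k m R ∧ SFD.val u F + a ≠ 0 ∧ SFD.val u F + a ∈ w}.ncard : ℝ) ≤
      C * Vol R ^ m * (Ideal.absNorm w : ℝ) ^ (-(j : ℝ) / finrank k M) ∧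
      ∀ F ∈ Box k m R, SFD.val u F + a ≠ 0 → SFD.val u F + a ∈ w →
        (Ideal.absNorm w : ℝ) ≤ C' * Vol R ^ finrank k M := by
  classical
  obtain ⟨C₁, hC₁, hsize⟩ := size_v (k := k) u
  set d := finrank ℚ k with hd
  set n := finrank k M with hn
  set D := finrank ℚ M with hD
  have hDdn : D = d * n := (finrank_mul_finrank ℚ k M).symm
  have hd0 : 0 < d := finrank_pos
  have hn0 : 0 < n := finrank_pos
  have hD0 : 0 < D := finrank_pos
  set A : ℝ := ∑ σ : M →+* ℂ, ‖σ (a : M)‖ with hA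
  have hA0 : 0 ≤ A := Finset.sum_nonneg fun _ _ => norm_nonneg _
  set C₂ : ℝ := C₁ + A with hC₂
  have hC₂1 : 1 ≤ C₂ := by linarith
  have hC₂0 : 0 < C₂ := by linarith
  refine ⟨8 ^ (d * m) * (2 * C₂) ^ (d * j), C₂ ^ D, by positivity, by positivity,
    fun w R hR => ?_⟩
  have hR0 : ∀ v, 0 < R v := fun v => lt_of_lt_of_le one_pos (hR v)
  have hV1 := one_le_vol R hR
  set V := Vol R with hV
  have hV0 : 0 < V := lt_of_lt_of_le one_pos hV1
  have hbig : ∀ F ∈ Box k m R, SFD.val u F + a ≠ 0 → SFD.val u F + a ∈ w →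
        (Ideal.absNorm w : ℝ) ≤ C₂ ^ D * V ^ n := by
    intro F hF h1 h2
    refine absNorm_le_v w _ h1 h2 C₂ R fun σ => ?_
    have h3 := hsize F R (fun v => (hR0 v).le) hF σ
    have h4 : ‖σ (a : M)‖ ≤ A :=
      Finset.single_le_sum (f := fun σ : M →+* ℂ => ‖σ (a : M)‖)
        (fun _ _ => norm_nonneg _) (Finset.mem_univ σ)
    have h5 : ((SFD.val u F + a : 𝓞 M) : M) = (SFD.val u F : M) + (a : M) := rfl
    rw [h5, map_add]
    refine (norm_add_le _ _).trans ?_
    have h6 := hR (InfinitePlace.mk (σ.comp (algebraMap k M)))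
    have h7 : A ≤ A * R (InfinitePlace.mk (σ.comp (algebraMap k M))) :=
      le_mul_of_one_le_right hA0 h6
    rw [hC₂, add_mul]
    linarith
  refine ⟨?_, hbig⟩
  set S := {F | F ∈ Box k m R ∧ SFD.val u F + a ≠ 0 ∧ SFD.val u F + a ∈ w} with hS
  rcases S.eq_empty_or_nonempty with he | ⟨F₀, hF₀⟩
  · rw [he, Set.ncard_empty, Nat.cast_zero]
    positivity
  set W : ℝ := (Ideal.absNorm w : ℝ) with hW
  have hW1 : 1 ≤ W := by
    have h1 : Ideal.absNorm w ≠ 0 := by
      rw [Ne, Ideal.absNorm_eq_zero_iff]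
      rintro rfl
      exact hF₀.2.1 ((Ideal.mem_bot).1 hF₀.2.2)
    rw [hW]
    exact_mod_cast Nat.one_le_iff_ne_zero.2 h1
  have hW0 : 0 < W := lt_of_lt_of_le one_pos hW1
  have hWR : W ≤ C₂ ^ D * V ^ n := hbig F₀ hF₀.1 hF₀.2.1 hF₀.2.2
  set Y : ℝ := W / V ^ n with hY
  have hY0 : 0 < Y := by positivity
  set ω : ℝ := Y ^ ((1 : ℝ) / D) with hω
  have hω0 : 0 < ω := Real.rpow_pos_of_pos hY0 _
  have hωD : ω ^ D = Y := by
    rw [hω, ← Real.rpow_natCast, ← Real.rpow_mul hY0.le, one_div,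
      inv_mul_cancel₀ (by exact_mod_cast hD0.ne'), Real.rpow_one]
  have hωR : ω ≤ C₂ := by
    have h1 : ω ^ D ≤ C₂ ^ D := by
      rw [hωD, hY, div_le_iff₀ (by positivity)]
      exact hWR
    exact le_of_pow_le_pow_left₀ hD0.ne' hC₂0.le h1
  set t : ℝ := ω / (2 * C₂) with ht
  have ht0 : 0 < t := by positivity
  have ht1 : t ≤ 1 := by
    rw [ht, div_le_iff₀ (by positivity)]
    linarith
  set θ : ℝ := V ^ (-(1 : ℝ) / d) with hθ
  have hθ0 : 0 < θ := Real.rpow_pos_of_pos hV0 _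
  have hθd : θ ^ d = V⁻¹ := by
    rw [hθ, ← Real.rpow_natCast, ← Real.rpow_mul hV0.le, div_mul_cancel₀ _
      (by exact_mod_cast hd0.ne'), Real.rpow_neg_one]
  have hθ1 : θ ≤ 1 := by
    refine Real.rpow_le_one_of_one_le_of_nonpos hV1 ?_
    have : (0 : ℝ) < d := by exact_mod_cast hd0
    rw [neg_div]
    have : 0 ≤ 1 / (d : ℝ) := by positivity
    linarith
  let τ : Fin m → ℝ := fun i => if (i : ℕ) < j then t else θ
  have hτ0 : ∀ i, 0 < τ i := by
    intro i
    show 0 < (if (i : ℕ) < j then t else θ)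
    split_ifs
    · exact ht0
    · exact hθ0
  have hτ1 : ∀ i, τ i ≤ 1 := by
    intro i
    show (if (i : ℕ) < j then t else θ) ≤ 1
    split_ifs
    · exact ht1
    · exact hθ1
  have hinj : ∀ F ∈ S, ∀ F' ∈ S,
      (∀ i, ∀ v : InfinitePlace k, v ((F i : k) - (F' i : k)) < τ i * R v) → F = F' := by
    intro F hF F' hF' hFF
    by_contra hne
    set G : Fin m → 𝓞 k := fun i => F i - F' i with hG
    have hGc : ∀ i, (G i : k) = (F i : k) - (F' i : k) := fun i => rfl
    have hGj : ∀ i : Fin m, ¬ (i : ℕ) < j → G i = 0 := by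
      intro i hi
      refine eq_zero_of_small _ R θ (by rw [← hd, hθd, ← hV, inv_mul_cancel₀ hV0.ne']) fun v => ?_
      have := hFF i v
      rw [hGc]
      simpa only [τ, if_neg hi] using this
    have hGt : ∀ i, ∀ v : InfinitePlace k, v (G i : k) ≤ t * R v := by
      intro i v
      by_cases hi : (i : ℕ) < j
      · have := hFF i v
        rw [hGc]
        simpa only [τ, if_pos hi] using this.le
      · rw [hGj i hi]
        have := (mul_pos ht0 (hR0 v)).le
        simpa using this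
    have hGmem : SFD.val u G ∈ w := by
      rw [hG, SFD.val_sub]
      have e1 : SFD.val u F - SFD.val u F' = (SFD.val u F + a) - (SFD.val u F' + a) := by ring
      rw [e1]
      exact w.sub_mem hF.2.2 hF'.2.2
    have hGne : SFD.val u G ≠ 0 := by
      intro h0
      apply hne
      have h1 : (SFD.val u G : M) =
          ∑ i : Fin j, (G (Fin.castLE hj i) : k) • (u (Fin.castLE hj i) : M) := by
        unfold SFD.val
        rw [RingOfIntegers.coe_eq_algebraMap, map_sum]
        have h2 : ∀ i : Fin m, algebraMap (𝓞 M) M (algebraMap (𝓞 k) (𝓞 M) (G i) * u i) =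
            (G i : k) • (u i : M) := by
          intro i
          rw [map_mul, Algebra.smul_def]
          rfl
        rw [Finset.sum_congr rfl fun i _ => h2 i]
        symm
        refine Finset.sum_of_injOn (Fin.castLE hj) (fun a _ b _ h => Fin.castLE_injective hj h)
          (fun a _ => Finset.mem_coe.2 (Finset.mem_univ _)) (fun i _ hi => ?_) (fun i _ => rfl)
        have h3 : ¬ (i : ℕ) < j := by
          intro h4
          exact hi ⟨⟨i, h4⟩, Finset.mem_coe.2 (Finset.mem_univ _), rfl⟩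
        rw [hGj i h3]
        simp
      rw [h0] at h1
      have h5 := Fintype.linearIndependent_iff.1 hu (fun i => (G (Fin.castLE hj i) : k))
        (by rw [← h1]; rfl)
      funext i
      by_cases hi : (i : ℕ) < j
      · have h6 : (G i : k) = 0 := h5 ⟨i, hi⟩
        have h7 : G i = 0 := RingOfIntegers.ext h6
        exact sub_eq_zero.1 h7
      · exact sub_eq_zero.1 (hGj i hi)
    have h1 : W ≤ (C₁ * t) ^ D * V ^ n := by
      refine absNorm_le_v w _ hGne hGmem (C₁ * t) R fun σ => ?_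
      have h3 := hsize G (fun v => t * R v) (fun v => (mul_pos ht0 (hR0 v)).le) hGt σ
      rw [← mul_assoc] at h3
      exact h3
    have h2 : C₁ * t ≤ ω / 2 := by
      rw [ht, ← mul_div_assoc, div_le_div_iff₀ (by positivity) two_pos]
      have h3 : C₁ ≤ C₂ := by linarith
      have h4 := mul_le_mul_of_nonneg_right h3 hω0.le
      linarith
    have h3 : (C₁ * t) ^ D ≤ Y / 2 ^ D := by
      rw [← hωD, ← div_pow]
      exact pow_le_pow_left₀ (by positivity) h2 D
    have h4 : W ≤ Y / 2 ^ D * V ^ n := h1.trans (mul_le_mul_of_nonneg_right h3 (by positivity))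
    have h5 : Y / 2 ^ D * V ^ n = W / 2 ^ D := by
      rw [hY]
      field_simp
    rw [h5, le_div_iff₀ (by positivity)] at h4
    have h6 : (2 : ℝ) ≤ 2 ^ D := by
      calc (2 : ℝ) = 2 ^ 1 := (pow_one _).symm
        _ ≤ 2 ^ D := pow_le_pow_right₀ one_le_two hD0
    nlinarith
  obtain ⟨hfin, hcard⟩ := cells_v (fun (F : Fin m → 𝓞 k) i => (F i : k)) R τ hR0 hτ0 hτ1 S
    (fun F hF => hF.1) hinj
  refine hcard.trans (le_of_eq ?_)
  have h1 : ∏ i, (8 / τ i) ^ d = 8 ^ (d * m) * (t⁻¹) ^ (d * j) * V ^ (m - j) := by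
    have h2 : ∀ i, (8 / τ i) ^ d = 8 ^ d * (if (i : ℕ) < j then (t⁻¹) ^ d else V) := by
      intro i
      show (8 / (if (i : ℕ) < j then t else θ)) ^ d = _
      split_ifs
      · rw [div_eq_mul_inv, mul_pow]
      · rw [div_pow, hθd, div_inv_eq_mul]
    rw [Finset.prod_congr rfl fun i _ => h2 i, Finset.prod_mul_distrib, Finset.prod_const,
      Finset.card_univ, Fintype.card_fin, ← pow_mul, Finset.prod_ite, Finset.prod_const,
      Finset.prod_const, card_lt m j hj, card_ge m j hj, ← pow_mul, mul_assoc]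
  rw [h1]
  have h3 : t⁻¹ = (2 * C₂) * ω⁻¹ := by
    rw [ht, inv_div, div_eq_mul_inv]
  have h4 : (ω⁻¹) ^ (d * j) = W ^ (-(j : ℝ) / n) * V ^ j := by
    have hd1 : (d : ℝ) ≠ 0 := by exact_mod_cast hd0.ne'
    have hn1 : (n : ℝ) ≠ 0 := by exact_mod_cast hn0.ne'
    have e1 : (ω⁻¹) ^ (d * j) = Y ^ (-(j : ℝ) / n) := by
      rw [hω, ← Real.rpow_neg hY0.le, ← Real.rpow_natCast, ← Real.rpow_mul hY0.le]
      congr 1
      rw [hDdn]
      push_cast
      field_simp
    rw [e1, hY, Real.div_rpow hW0.le (by positivity)]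
    have e2 : (V ^ n) ^ (-(j : ℝ) / n) = (V ^ j)⁻¹ := by
      rw [← Real.rpow_natCast, ← Real.rpow_mul hV0.le, mul_div_cancel₀ _ hn1,
        Real.rpow_neg hV0.le, Real.rpow_natCast]
    rw [e2, div_inv_eq_mul]
  have h5 : V ^ m = V ^ j * V ^ (m - j) := by
    rw [← pow_add, Nat.add_sub_cancel' hj]
  rw [h3, mul_pow, h4, h5]
  ring

end Pool.Agent.EIN
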