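import Pool.Agent.EIN.Norm
import Pool.Agent.EIN.Cells
import Pool.Agent.EIN.Count
import Pool.Agent.SFD.GoodX

/-!
# The monic form of an integral point
-/

set_option autoImplicit false

open Polynomial NumberField IntermediateField Module

namespace Pool.Agent.EIN

/-- the monic polynomial with the given lower coefficients -/
noncomputable def polyM {k : Type} [Field k] [NumberField k] {m : ℕ} (F : Fin m → 𝓞 k) :
    (𝓞 k)[X] := X ^ m + ∑ i : Fin m, C (F i) * X ^ (i : ℕ)

theorem degree_low {k : Type} [Field k] [NumberField k] {m : ℕ} (F : Fin m → 𝓞 k) :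
    (∑ i : Fin m, C (F i) * X ^ (i : ℕ) : (𝓞 k)[X]).degree < m := by
  refine lt_of_le_of_lt (degree_sum_le _ _) ?_
  rw [Finset.sup_lt_iff (by exact_mod_cast WithBot.bot_lt_coe m)]
  intro i _
  exact lt_of_le_of_lt (degree_C_mul_X_pow_le _ _) (by exact_mod_cast i.2)

theorem polyM_monic {k : Type} [Field k] [NumberField k] {m : ℕ} (F : Fin m → 𝓞 k) :
    (polyM F).Monic := monic_X_pow_add (degree_low F)

theorem polyM_natDegree {k : Type} [Field k] [NumberField k] {m : ℕ} (F : Fin m → 𝓞 k) :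
    (polyM F).natDegree = m := by
  have h1 : (polyM F).degree = m := by
    unfold polyM
    rw [degree_add_eq_left_of_degree_lt (by rw [degree_X_pow]; exact degree_low F), degree_X_pow]
  exact natDegree_eq_of_degree_eq_some h1

/-- the function of the coefficients -/
theorem rootOf {k : Type} [Field k] [NumberField k] (n : ℕ) (F : (𝓞 k)[X])
    (x : AlgebraicClosure k) (hx : finrank k (IntermediateField.adjoin k {x}) = n)
    (hF : F.natDegree = n) (hFx : aeval x (F.map (algebraMap (𝓞 k) k)) = 0) :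
    RefW.RootOf (fun i : Fin (n + 1) => F.coeff i) (IntermediateField.adjoin k {x})
      (AdjoinSimple.gen k x) where
  gen := by
    apply IntermediateField.lift_injective (IntermediateField.adjoin k {x})
    rw [IntermediateField.lift_adjoin_simple, IntermediateField.lift_top,
      AdjoinSimple.coe_gen]
  deg := hx
  root := by
    have h1 : aeval (AdjoinSimple.gen k x) (F.map (algebraMap (𝓞 k) k)) = 0 := by
      apply (algebraMap (IntermediateField.adjoin k {x}) (AlgebraicClosure k)).injective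
      rw [map_zero, ← aeval_algebraMap_apply, AdjoinSimple.algebraMap_gen]
      exact hFx
    rw [aeval_eq_sum_range' (n := n + 1)
      (Nat.lt_succ_of_le ((natDegree_map_le).trans hF.le))] at h1
    rw [← h1, ← Fin.sum_univ_eq_sum_range (fun i => (F.map (algebraMap (𝓞 k) k)).coeff i •
      AdjoinSimple.gen k x ^ i)]
    refine Finset.sum_congr rfl fun i _ => ?_
    rw [coeff_map, Algebra.smul_def]

/-- the minimal polynomial of an integral point -/
theorem exists_monic {k : Type} [Field k] [NumberField k] (m : ℕ) (x : AlgebraicClosure k)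
    (hx : finrank k (IntermediateField.adjoin k {x}) = m) (hint : IsIntegral ℤ x) :
    ∃ F : Fin m → 𝓞 k, aeval x ((polyM F).map (algebraMap (𝓞 k) k)) = 0 := by
  have hi : IsIntegral (𝓞 k) x := hint.tower_top
  have h1 : minpoly k x = (minpoly (𝓞 k) x).map (algebraMap (𝓞 k) k) :=
    minpoly.isIntegrallyClosed_eq_field_fractions' k hi
  have hint' : IsIntegral k x := Algebra.IsIntegral.isIntegral x
  have h2 : (minpoly k x).natDegree = m := by
    rw [← hx, IntermediateField.adjoin.finrank hint']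
  have h3 : (minpoly (𝓞 k) x).natDegree = m := by
    rw [← h2, h1, natDegree_map_eq_of_injective RingOfIntegers.coe_injective]
  refine ⟨fun i => (minpoly (𝓞 k) x).coeff i, ?_⟩
  have h4 : polyM (fun i : Fin m => (minpoly (𝓞 k) x).coeff i) = minpoly (𝓞 k) x := by
    conv_rhs => rw [(minpoly.monic hi).as_sum, h3]
    unfold polyM
    rw [← Fin.sum_univ_eq_sum_range (fun i => C ((minpoly (𝓞 k) x).coeff i) * X ^ i)]
  rw [h4, ← h1, minpoly.aeval]

/-- the height of an integral point -/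
theorem relHeight_prod {k : Type} [Field k] [NumberField k] (m : ℕ) (F : (𝓞 k)[X])
    (x : AlgebraicClosure k) (hx : finrank k (IntermediateField.adjoin k {x}) = m)
    (hF : F.natDegree = m) (hFm : F.Monic) (hFx : aeval x (F.map (algebraMap (𝓞 k) k)) = 0) :
    AA.relHeight x = ∏ σ : IntermediateField.adjoin k {x} →+* ℂ,
      max 1 ‖σ (AdjoinSimple.gen k x)‖ := by
  have h1 := SS.den_dvd m F x hx hF hFm.ne_zero hFx
  rw [hFm.leadingCoeff, map_one, Int.natAbs_one, Nat.dvd_one] at h1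
  have h2 := SS.height_den (AdjoinSimple.gen k x)
  rw [h1, Nat.cast_one, one_mul] at h2
  exact h2

/-- The form of an integral point lies in a dyadic box of the right volume. -/
theorem exists_box {k : Type} [Field k] [NumberField k] (m : ℕ) (x : AlgebraicClosure k)
    (hx : finrank k (IntermediateField.adjoin k {x}) = m) (hint : IsIntegral ℤ x) :
    ∃ (F : Fin m → 𝓞 k) (n : InfinitePlace k → ℕ),
      F ∈ Box k m (fun v => 2 ^ m * 2 ^ n v) ∧
      (∀ v, (2 : ℝ) ^ n v ≤ 2 * Real.exp (finrank ℚ k * m * AA.height x)) ∧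
      Real.exp (finrank ℚ k * m * AA.height x) ≤
        Vol (fun v : InfinitePlace k => (2 : ℝ) ^ m * 2 ^ n v) ∧
      Vol (fun v : InfinitePlace k => (2 : ℝ) ^ m * 2 ^ n v) ≤
        2 ^ (finrank ℚ k * (m + 1)) * Real.exp (finrank ℚ k * m * AA.height x) ∧
      aeval x ((polyM F).map (algebraMap (𝓞 k) k)) = 0 := by
  classical
  obtain ⟨F, hFx⟩ := exists_monic m x hx hint
  set P := polyM F with hP
  have hPd : P.natDegree = m := polyM_natDegree F
  have hPm : P.Monic := polyM_monic F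
  have hrel := relHeight_prod m P x hx hPd hPm hFx
  rw [SFD.relHeight_eq x m hx] at hrel
  set L := IntermediateField.adjoin k {x} with hL
  set ξ : L := AdjoinSimple.gen k x with hξ
  have hroot := rootOf m P x hx hPd hFx
  have hcoeff : ∀ i : Fin m, P.coeff (i : ℕ) = F i := by
    intro i
    rw [hP]
    unfold polyM
    rw [coeff_add, coeff_X_pow, if_neg (by have := i.2; omega), zero_add, finsetSum_coeff]
    rw [Finset.sum_eq_single i]
    · rw [coeff_C_mul, coeff_X_pow, if_pos rfl, mul_one]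
    · intro b _ hb
      rw [coeff_C_mul, coeff_X_pow, if_neg (fun h => hb (Fin.ext h.symm)), mul_zero]
    · intro h
      exact absurd (Finset.mem_univ i) h
  have hF0 : (fun i : Fin (m + 1) => P.coeff i) ≠ 0 := by
    intro h
    have h1 := congrFun h (Fin.last m)
    have h2 : P.coeff m = 1 := by
      rw [← hPd]
      exact hPm.coeff_natDegree
    have h3 : P.coeff ((Fin.last m : Fin (m + 1)) : ℕ) = 0 := h1
    rw [Fin.val_last, h2] at h3
    exact one_ne_zero h3
  -- the local Mahler measures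
  set Mh : (k →+* ℂ) → ℝ := fun ρ =>
    ∏ σ : {σ : L →+* ℂ // σ.comp (algebraMap k L) = ρ}, max 1 ‖σ.1 ξ‖ with hMh
  have hMh1 : ∀ ρ, 1 ≤ Mh ρ := by
    intro ρ
    have h1 : ∏ _σ : {σ : L →+* ℂ // σ.comp (algebraMap k L) = ρ}, (1 : ℝ) ≤ Mh ρ :=
      Finset.prod_le_prod (fun _ _ => zero_le_one) fun _ _ => le_max_left _ _
    rwa [Finset.prod_const_one] at h1
  have hMprod : ∏ ρ, Mh ρ = ∏ σ : L →+* ℂ, max 1 ‖σ ξ‖ := by
    rw [hMh]
    exact Fintype.prod_fiberwise (fun σ : L →+* ℂ => σ.comp (algebraMap k L))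
      (fun σ => max 1 ‖σ ξ‖)
  have hMc : ∀ ρ, Mh (ComplexEmbedding.conjugate ρ) = Mh ρ := by
    intro ρ
    rw [hMh]
    have hcc : ∀ (σ : L →+* ℂ) (ρ : k →+* ℂ), σ.comp (algebraMap k L) = ρ →
        (ComplexEmbedding.conjugate σ).comp (algebraMap k L) = ComplexEmbedding.conjugate ρ := by
      intro σ ρ h
      rw [← h]
      rfl
    have hc2 : ∀ (ρ : k →+* ℂ),
        ComplexEmbedding.conjugate (ComplexEmbedding.conjugate ρ) = ρ := by
      intro ρ
      exact RingHom.ext fun z => by simp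
    have hc3 : ∀ (σ : L →+* ℂ),
        ComplexEmbedding.conjugate (ComplexEmbedding.conjugate σ) = σ := by
      intro ρ
      exact RingHom.ext fun z => by simp
    refine Fintype.prod_bijective
      (fun σ : {σ : L →+* ℂ // σ.comp (algebraMap k L) = ComplexEmbedding.conjugate ρ} =>
        (⟨ComplexEmbedding.conjugate σ.1, by rw [hcc σ.1 _ σ.2, hc2]⟩ :
          {σ : L →+* ℂ // σ.comp (algebraMap k L) = ρ})) ?_ _ _ ?_
    · constructor
      · intro σ τ h
        have h1 := congrArg Subtype.val h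
        have h2 := congrArg ComplexEmbedding.conjugate h1
        simp only [hc3] at h2
        exact Subtype.ext h2
      · intro σ
        refine ⟨⟨ComplexEmbedding.conjugate σ.1, hcc σ.1 _ σ.2⟩, ?_⟩
        exact Subtype.ext (hc3 σ.1)
    · intro σ
      simp
  have hMv : ∀ φ : k →+* ℂ, Mh (InfinitePlace.mk φ).embedding = Mh φ := by
    intro φ
    have h1 : InfinitePlace.mk (InfinitePlace.mk φ).embedding = InfinitePlace.mk φ :=
      InfinitePlace.mk_embedding _
    rcases InfinitePlace.mk_eq_iff.1 h1 with h2 | h2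
    · rw [h2]
    · rw [← hMc, h2]
  have hMle : ∀ φ, Mh φ ≤ ∏ ρ, Mh ρ := by
    intro φ
    rw [← Finset.mul_prod_erase _ _ (Finset.mem_univ φ)]
    refine le_mul_of_one_le_right (zero_le_one.trans (hMh1 φ)) ?_
    have h1 : ∏ _ρ ∈ Finset.univ.erase φ, (1 : ℝ) ≤ ∏ ρ ∈ Finset.univ.erase φ, Mh ρ :=
      Finset.prod_le_prod (fun _ _ => zero_le_one) fun _ _ => hMh1 _
    rwa [Finset.prod_const_one] at h1
  have hcoef : ∀ (i : Fin m) (φ : k →+* ℂ), ‖φ (F i : k)‖ ≤ 2 ^ m * Mh φ := by
    intro i φ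
    obtain ⟨e, he⟩ := RefW.exists_fibre_equiv hF0 hroot φ
    have h4 := (RefW.mahler_le (fun i : Fin (m + 1) => φ (P.coeff i : k))
      (φ (P.coeff (Fin.last m : Fin (m + 1)) : k)) (fun l => (e l).1 ξ) he).2
    have h5 : ∏ l, max 1 ‖(e l).1 ξ‖ = Mh φ := by
      rw [hMh]
      exact Fintype.prod_equiv e _ _ fun l => rfl
    have h6 : P.coeff ((Fin.last m : Fin (m + 1)) : ℕ) = 1 := by
      rw [Fin.val_last, ← hPd]
      exact hPm.coeff_natDegree
    rw [h5, h6] at h4
    have h7 : ‖φ ((1 : 𝓞 k) : k)‖ = 1 := by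
      have : ((1 : 𝓞 k) : k) = 1 := rfl
      rw [this, map_one, norm_one]
    rw [h7, one_mul] at h4
    have h8 := norm_le_pi_norm (fun i : Fin (m + 1) => φ (P.coeff i : k)) i.castSucc
    have h9 : P.coeff ((i.castSucc : Fin (m + 1)) : ℕ) = F i := by
      rw [Fin.val_castSucc, hcoeff]
    simp only [h9] at h8
    exact h8.trans h4
  have hn : ∀ v : InfinitePlace k, ∃ n : ℕ, Mh v.embedding ≤ 2 ^ n ∧
      (2 : ℝ) ^ n ≤ 2 * Mh v.embedding := by
    intro v
    obtain ⟨n, h1, h2⟩ := exists_nat_pow_near (hMh1 v.embedding) (one_lt_two (α := ℝ))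
    refine ⟨n + 1, h2.le, ?_⟩
    rw [pow_succ, mul_comm]
    exact mul_le_mul_of_nonneg_left h1 two_pos.le
  choose n hn1 hn2 using hn
  have hVol : Vol (fun v : InfinitePlace k => (2 : ℝ) ^ m * 2 ^ n v) =
      2 ^ (finrank ℚ k * m) * ∏ φ : k →+* ℂ, (2 : ℝ) ^ n (InfinitePlace.mk φ) := by
    unfold Vol
    rw [Finset.prod_mul_distrib, Finset.prod_const, Finset.card_univ, Embeddings.card, ← pow_mul,
      mul_comm m]
  have hlow : ∏ ρ, Mh ρ ≤ ∏ φ : k →+* ℂ, (2 : ℝ) ^ n (InfinitePlace.mk φ) := by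
    refine Finset.prod_le_prod (fun φ _ => zero_le_one.trans (hMh1 φ)) fun φ _ => ?_
    rw [← hMv φ]
    exact hn1 _
  have hup : ∏ φ : k →+* ℂ, (2 : ℝ) ^ n (InfinitePlace.mk φ) ≤ 2 ^ finrank ℚ k * ∏ ρ, Mh ρ := by
    have h1 : ∏ φ : k →+* ℂ, (2 : ℝ) ^ n (InfinitePlace.mk φ) ≤ ∏ φ : k →+* ℂ, (2 * Mh φ) := by
      refine Finset.prod_le_prod (fun φ _ => by positivity) fun φ _ => ?_
      rw [← hMv φ]
      exact hn2 _
    rwa [Finset.prod_mul_distrib, Finset.prod_const, Finset.card_univ, Embeddings.card] at h1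
  refine ⟨F, n, fun i v => ?_, fun v => ?_, ?_, ?_, hFx⟩
  · rw [← InfinitePlace.norm_embedding_eq]
    exact (hcoef i v.embedding).trans (mul_le_mul_of_nonneg_left (hn1 v) (by positivity))
  · refine (hn2 v).trans (mul_le_mul_of_nonneg_left ?_ two_pos.le)
    rw [hrel, ← hMprod]
    exact hMle _
  · rw [hrel, ← hMprod, hVol]
    have h1 : (1 : ℝ) ≤ 2 ^ (finrank ℚ k * m) := one_le_pow₀ one_le_two
    have h2 : 0 ≤ ∏ ρ, Mh ρ := Finset.prod_nonneg fun ρ _ => zero_le_one.trans (hMh1 ρ)
    calc ∏ ρ, Mh ρ ≤ ∏ φ : k →+* ℂ, (2 : ℝ) ^ n (InfinitePlace.mk φ) := hlow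
      _ ≤ _ := le_mul_of_one_le_left (h2.trans hlow) h1
  · rw [hrel, ← hMprod, hVol, mul_add, mul_one, pow_add, mul_assoc]
    exact mul_le_mul_of_nonneg_left hup (by positivity)

end Pool.Agent.EIN
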