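import Pool.Agent.EIN.Count
import Pool.Agent.SFD.Sieve

/-!
# Few values have a norm with a large squarefull part
-/

set_option autoImplicit false

open Polynomial NumberField IntermediateField Module

namespace Pool.Agent.EIN

/-- Few values have a norm with a large squarefull part. -/
theorem sieve_v {k M : Type} [Field k] [NumberField k] [Field M] [NumberField M] [Algebra k M]
    {m : ℕ} (u : Fin m → 𝓞 M) (a : 𝓞 M) (j : ℕ) (hj : j ≤ m)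
    (hu : LinearIndependent k (fun i : Fin j => (u (Fin.castLE hj i) : M)))
    (hjn : finrank k M < 2 * j) :
    ∃ C δ : ℝ, 0 < C ∧ 0 < δ ∧ ∀ (R : InfinitePlace k → ℝ) (Z : ℝ), (∀ v, 1 ≤ R v) → 1 ≤ Z →
      ({F | F ∈ Box k m R ∧ SFD.val u F + a ≠ 0 ∧
        SFD.Big (Ideal.absNorm (Ideal.span {SFD.val u F + a})) Z}.ncard : ℝ) ≤
      C * Vol R ^ m * Z ^ (-δ) := by
  classical
  obtain ⟨C₁, C₂, hC₁, hC₂, hcount⟩ := count_v (k := k) u a j hj hu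
  set d := finrank ℚ k with hd
  set n := finrank k M with hn
  set D := finrank ℚ M with hD
  have hn0 : 0 < n := finrank_pos
  set κ : ℝ := (j : ℝ) / n with hκ
  have hκ2 : 1 / 2 < κ := by
    rw [hκ, div_lt_div_iff₀ two_pos (by exact_mod_cast hn0)]
    have : (n : ℝ) < 2 * j := by exact_mod_cast hjn
    linarith
  set δ : ℝ := (κ - 1 / 2) / 2 with hδ
  have hδ0 : 0 < δ := by rw [hδ]; linarith
  obtain ⟨C₃, hC₃, hnorm⟩ := SS.card_norm M (δ / 2) (half_pos hδ0)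
  obtain ⟨C₄, hC₄, hsum⟩ := SS.sum_full (κ - δ / 2) (δ / 2) (by rw [hδ]; linarith)
    (half_pos hδ0)
  refine ⟨C₁ * C₃ * C₄, δ, by positivity, hδ0, fun R Z hR hZ => ?_⟩
  have hV1 := one_le_vol R hR
  set V := Vol R with hV
  have hV0 : 0 < V := lt_of_lt_of_le one_pos hV1
  set S := {F | F ∈ Box k m R ∧ SFD.val u F + a ≠ 0 ∧
        SFD.Big (Ideal.absNorm (Ideal.span {SFD.val u F + a})) Z} with hS
  set Q : ℝ := C₂ * V ^ n with hQ
  set 𝒯 : Finset ℕ := (Finset.range (⌊Q⌋₊ + 1)).filter fun t => Z ≤ t ∧ SS.Full t with h𝒯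
  have h𝒯' : ∀ t ∈ 𝒯, Z ≤ t ∧ SS.Full t := fun t ht => (Finset.mem_filter.1 ht).2
  have hpos : ∀ t ∈ 𝒯, 1 ≤ t := by
    intro t ht
    have h1 := (h𝒯' t ht).1
    have h2 : (1 : ℝ) ≤ t := hZ.trans h1
    exact_mod_cast h2
  let 𝒲 : ℕ → Finset (Ideal (𝓞 M)) := fun t =>
    if h : 1 ≤ t then (hnorm t h).1.toFinset else ∅
  have h𝒲 : ∀ t, 1 ≤ t → ∀ w, w ∈ 𝒲 t ↔ Ideal.absNorm w = t := by
    intro t ht w
    show w ∈ (if h : 1 ≤ t then (hnorm t h).1.toFinset else ∅) ↔ _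
    rw [dif_pos ht, Set.Finite.mem_toFinset]
    exact Iff.rfl
  have h𝒲c : ∀ t, 1 ≤ t → ((𝒲 t).card : ℝ) ≤ C₃ * (t : ℝ) ^ (δ / 2) := by
    intro t ht
    have h1 : (𝒲 t).card = {w : Ideal (𝓞 M) | Ideal.absNorm w = t}.ncard := by
      show (if h : 1 ≤ t then (hnorm t h).1.toFinset else ∅).card = _
      rw [dif_pos ht]
      exact (Set.ncard_eq_toFinset_card _ (hnorm t ht).1).symm
    rw [h1]
    exact (hnorm t ht).2
  let Vw : Ideal (𝓞 M) → Set (Fin m → 𝓞 k) := fun w =>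
    {F | F ∈ Box k m R ∧ SFD.val u F + a ≠ 0 ∧ SFD.val u F + a ∈ w}
  have hsub : S ⊆ ⋃ t ∈ 𝒯, ⋃ w ∈ 𝒲 t, Vw w := by
    rintro F ⟨hF1, hF2, s, t, hst, hcop, hfull, hZt⟩
    obtain ⟨w, hw, hwt⟩ := SFD.exists_ideal (Ideal.span {SFD.val u F + a}) s t hst hcop
    have hmem : SFD.val u F + a ∈ w := hw (Ideal.mem_span_singleton_self _)
    have ht1 : 1 ≤ t := by
      have h2 : (1 : ℝ) ≤ t := hZ.trans hZt
      exact_mod_cast h2
    have h3 : (t : ℝ) ≤ Q := by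
      rw [← hwt]
      exact (hcount w R hR).2 F hF1 hF2 hmem
    refine Set.mem_biUnion (x := t) ?_ (Set.mem_biUnion (x := w) ?_ ⟨hF1, hF2, hmem⟩)
    · rw [Finset.mem_coe, h𝒯, Finset.mem_filter, Finset.mem_range, Nat.lt_succ_iff]
      exact ⟨Nat.le_floor h3, hZt, hfull⟩
    · exact Finset.mem_coe.2 ((h𝒲 t ht1 w).2 hwt)
  have hfin : (⋃ t ∈ 𝒯, ⋃ w ∈ 𝒲 t, Vw w).Finite :=
    Set.Finite.biUnion 𝒯.finite_toSet fun t _ =>
      Set.Finite.biUnion (𝒲 t).finite_toSet fun w _ =>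
        (card_box m R hR).1.subset fun F hF => hF.1
  have h1 : (S.ncard : ℝ) ≤ ∑ t ∈ 𝒯, ∑ w ∈ 𝒲 t, ((Vw w).ncard : ℝ) := by
    have h2 : S.ncard ≤ ∑ t ∈ 𝒯, ∑ w ∈ 𝒲 t, (Vw w).ncard :=
      (Set.ncard_le_ncard hsub hfin).trans ((Finset.set_ncard_biUnion_le _ _).trans
        (Finset.sum_le_sum fun t _ => Finset.set_ncard_biUnion_le _ _))
    exact_mod_cast h2
  refine h1.trans ?_
  have h2 : ∀ t ∈ 𝒯, ∑ w ∈ 𝒲 t, ((Vw w).ncard : ℝ) ≤
      C₁ * C₃ * V ^ m * (t : ℝ) ^ (-(κ - δ / 2)) := by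
    intro t ht
    have ht1 := hpos t ht
    have ht0 : (0 : ℝ) < t := by exact_mod_cast ht1
    calc ∑ w ∈ 𝒲 t, ((Vw w).ncard : ℝ)
        ≤ ∑ w ∈ 𝒲 t, C₁ * V ^ m * (t : ℝ) ^ (-κ) := by
          refine Finset.sum_le_sum fun w hw => ?_
          have h3 := (hcount w R hR).1
          rw [(h𝒲 t ht1 w).1 hw, neg_div] at h3
          exact h3
      _ = (𝒲 t).card * (C₁ * V ^ m * (t : ℝ) ^ (-κ)) := by
          rw [Finset.sum_const, nsmul_eq_mul]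
      _ ≤ (C₃ * (t : ℝ) ^ (δ / 2)) * (C₁ * V ^ m * (t : ℝ) ^ (-κ)) :=
          mul_le_mul_of_nonneg_right (h𝒲c t ht1) (by positivity)
      _ = C₁ * C₃ * V ^ m * (t : ℝ) ^ (-(κ - δ / 2)) := by
          have h4 : -(κ - δ / 2) = δ / 2 + -κ := by ring
          rw [h4, Real.rpow_add ht0]
          ring
  refine (Finset.sum_le_sum h2).trans ?_
  rw [← Finset.mul_sum]
  have h5 := hsum Z hZ 𝒯 h𝒯'
  have h6 : 1 / 2 + δ / 2 - (κ - δ / 2) = -δ := by rw [hδ]; ring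
  rw [h6] at h5
  calc C₁ * C₃ * V ^ m * ∑ t ∈ 𝒯, (t : ℝ) ^ (-(κ - δ / 2))
      ≤ C₁ * C₃ * V ^ m * (C₄ * Z ^ (-δ)) :=
        mul_le_mul_of_nonneg_left h5 (by positivity)
    _ = _ := by ring

end Pool.Agent.EIN
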