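import Pool.Agent.EIN.Count

/-!
# Few vectors in a box have a small value
-/

set_option autoImplicit false

open Polynomial NumberField IntermediateField Module

namespace Pool.Agent.EIN

/-- Few vectors in a box have a small value. -/
theorem slab_v {k M : Type} [Field k] [NumberField k] [Field M] [NumberField M] [Algebra k M]
    {m : ℕ} (u : Fin (m + 1) → 𝓞 M) (a : 𝓞 M) (c : 𝓞 k) (hc : c ≠ 0)
    (hu : u 0 = algebraMap (𝓞 k) (𝓞 M) c) (σ : M →+* ℂ) :
    ∃ C : ℝ, 0 < C ∧ ∀ (R : InfinitePlace k → ℝ) (X : ℝ), (∀ v, 1 ≤ R v) → 1 ≤ X → X ≤ Vol R →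
      ({F | F ∈ Box k (m + 1) R ∧ ‖σ ((SFD.val u F + a : 𝓞 M) : M)‖ ≤
        R (InfinitePlace.mk (σ.comp (algebraMap k M))) / X}.ncard : ℝ) ≤
        C * Vol R ^ (m + 1) / X := by
  classical
  set d := finrank ℚ k with hd
  have hd0 : 0 < d := finrank_pos
  set φ₀ : k →+* ℂ := σ.comp (algebraMap k M) with hφ₀
  set v₀ : InfinitePlace k := InfinitePlace.mk φ₀ with hv₀
  have hck : (c : k) ≠ 0 := fun h => hc (RingOfIntegers.ext h)
  set c₀ : ℝ := min 1 (v₀ (c : k)) with hc₀
  have hvc : 0 < v₀ (c : k) := InfinitePlace.pos_iff.2 hck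
  have hc₀0 : 0 < c₀ := lt_min one_pos hvc
  have hc₀1 : c₀ ≤ 1 := min_le_left _ _
  have hc₀v : c₀ ≤ v₀ (c : k) := min_le_right _ _
  refine ⟨8 ^ (d * m) * (8 ^ d * (2 ^ d * (c₀⁻¹) ^ d)), by positivity,
    fun R X hR hX hXV => ?_⟩
  have hR0 : ∀ v, 0 < R v := fun v => lt_of_lt_of_le one_pos (hR v)
  have hX0 : 0 < X := lt_of_lt_of_le one_pos hX
  have hV1 := one_le_vol R hR
  set V := Vol R with hV
  have hV0 : 0 < V := lt_of_lt_of_le one_pos hV1
  set S := {F | F ∈ Box k (m + 1) R ∧ ‖σ ((SFD.val u F + a : 𝓞 M) : M)‖ ≤ R v₀ / X} with hS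
  -- the small box
  set γ : InfinitePlace k → ℝ := fun v => if v = v₀ then (X * c₀)⁻¹ else 1 with hγ
  have hγ0 : ∀ v, 0 < γ v := by
    intro v
    simp only [hγ]
    split_ifs
    · positivity
    · exact one_pos
  have hγ1 : ∀ v, γ v ≤ c₀⁻¹ := by
    intro v
    simp only [hγ]
    split_ifs
    · rw [mul_inv]
      exact mul_le_of_le_one_left (by positivity) (inv_le_one_of_one_le₀ hX)
    · exact (one_le_inv₀ hc₀0).2 hc₀1
  set R' : InfinitePlace k → ℝ := fun v => 2 * R v * γ v with hR'
  have hR'0 : ∀ v, 0 < R' v := fun v => by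
    have := hR0 v
    have := hγ0 v
    simp only [hR']
    positivity
  have hVR' : Vol R' ≤ 2 ^ d * (c₀⁻¹) ^ d * (V / X) := by
    have e1 : Vol R' = 2 ^ d * V * ∏ φ : k →+* ℂ, γ (InfinitePlace.mk φ) := by
      rw [hV]
      unfold Vol
      simp only [hR', Finset.prod_mul_distrib, Finset.prod_const, Finset.card_univ,
        Embeddings.card]
      rfl
    have e2 : ∏ φ : k →+* ℂ, γ (InfinitePlace.mk φ) ≤ X⁻¹ * (c₀⁻¹) ^ d := by
      rw [← Finset.mul_prod_erase _ _ (Finset.mem_univ φ₀)]
      have e3 : γ (InfinitePlace.mk φ₀) = X⁻¹ * c₀⁻¹ := by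
        simp only [hγ]
        rw [if_pos rfl, mul_inv]
      have e4 : ∏ φ ∈ Finset.univ.erase φ₀, γ (InfinitePlace.mk φ) ≤ (c₀⁻¹) ^ (d - 1) := by
        refine (Finset.prod_le_prod (fun φ _ => (hγ0 _).le) fun φ _ => hγ1 _).trans ?_
        rw [Finset.prod_const, Finset.card_erase_of_mem (Finset.mem_univ _), Finset.card_univ,
          Embeddings.card]
      have e5 : (c₀⁻¹) ^ d = c₀⁻¹ * (c₀⁻¹) ^ (d - 1) := by
        rw [← pow_succ']
        congr 1
        omega
      rw [e3, e5, ← mul_assoc]
      exact mul_le_mul_of_nonneg_left e4 (by positivity)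
    rw [e1]
    calc 2 ^ d * V * ∏ φ : k →+* ℂ, γ (InfinitePlace.mk φ) ≤
        2 ^ d * V * (X⁻¹ * (c₀⁻¹) ^ d) := mul_le_mul_of_nonneg_left e2 (by positivity)
      _ = _ := by
        rw [div_eq_mul_inv]
        ring
  set W : ℝ := max 1 (Vol R') with hW
  have hW1 : 1 ≤ W := le_max_left _ _
  have hW0 : 0 < W := lt_of_lt_of_le one_pos hW1
  have hWle : W ≤ 2 ^ d * (c₀⁻¹) ^ d * (V / X) := by
    refine max_le ?_ hVR'
    have e1 : (1 : ℝ) ≤ 2 ^ d := one_le_pow₀ one_le_two
    have e2 : (1 : ℝ) ≤ (c₀⁻¹) ^ d := one_le_pow₀ ((one_le_inv₀ hc₀0).2 hc₀1)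
    have e3 : 1 ≤ V / X := by
      rw [le_div_iff₀ hX0, one_mul]
      exact hXV
    calc (1 : ℝ) = 1 * 1 * 1 := by norm_num
      _ ≤ 2 ^ d * (c₀⁻¹) ^ d * (V / X) :=
        mul_le_mul (mul_le_mul e1 e2 zero_le_one (by positivity)) e3 zero_le_one (by positivity)
  set θ : ℝ := W ^ (-(1 : ℝ) / d) with hθ
  have hθ0 : 0 < θ := Real.rpow_pos_of_pos hW0 _
  have hθd : θ ^ d = W⁻¹ := by
    rw [hθ, ← Real.rpow_natCast, ← Real.rpow_mul hW0.le, div_mul_cancel₀ _
      (by exact_mod_cast hd0.ne'), Real.rpow_neg_one]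
  have hθ1 : θ ≤ 1 := by
    refine Real.rpow_le_one_of_one_le_of_nonpos hW1 ?_
    have : (0 : ℝ) < d := by exact_mod_cast hd0
    rw [neg_div]
    have : 0 ≤ 1 / (d : ℝ) := by positivity
    linarith
  obtain ⟨hbf, hbc⟩ := card_box m R hR
  have hfib := AA.UpperAux.ncard_le_of_fiber S (fun F : Fin (m + 1) → 𝓞 k => Fin.tail F)
    (Box k m R) hbf (fun F hF i v => hF.1 i.succ v) (8 ^ d * W) (fun g _ => by
      rcases (S ∩ (fun F : Fin (m + 1) → 𝓞 k => Fin.tail F) ⁻¹' {g}).eq_empty_or_nonempty
        with h0 | ⟨F₀, hF₀, hg₀⟩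
      · rw [h0, Set.ncard_empty, Nat.cast_zero]
        exact ⟨Set.finite_empty, by positivity⟩
      · have hg₀' : Fin.tail F₀ = g := hg₀
        have h1 := cells_v (fun (F : Fin (m + 1) → 𝓞 k) (_ : Unit) => ((F 0 - F₀ 0 : 𝓞 k) : k)) R'
          (fun _ => θ) hR'0 (fun _ => hθ0) (fun _ => hθ1)
          (S ∩ (fun F : Fin (m + 1) → 𝓞 k => Fin.tail F) ⁻¹' {g})
          (by
            rintro F ⟨hF, hg⟩ _ v
            have hg' : Fin.tail F = g := hg
            have e0 : ((F 0 - F₀ 0 : 𝓞 k) : k) = (F 0 : k) - (F₀ 0 : k) := rfl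
            have e1 : v ((F 0 : k) - (F₀ 0 : k)) ≤ 2 * R v := by
              have e2 : v ((F 0 : k) - (F₀ 0 : k)) ≤ v (F 0 : k) + v (F₀ 0 : k) := by
                rw [← InfinitePlace.norm_embedding_eq, ← InfinitePlace.norm_embedding_eq,
                  ← InfinitePlace.norm_embedding_eq, map_sub]
                exact norm_sub_le _ _
              have := hF.1 0 v
              have := hF₀.1 0 v
              linarith
            rw [e0]
            show v ((F 0 : k) - (F₀ 0 : k)) ≤ 2 * R v * γ v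
            by_cases hv : v = v₀
            · have e3 : γ v = (X * c₀)⁻¹ := by
                simp only [hγ]
                rw [if_pos hv]
              rw [e3, hv, ← div_eq_mul_inv, le_div_iff₀ (by positivity)]
              have e4 : (SFD.val u F + a) - (SFD.val u F₀ + a) =
                  algebraMap (𝓞 k) (𝓞 M) (F 0 - F₀ 0) * u 0 := by
                have e5 : (SFD.val u F + a) - (SFD.val u F₀ + a) =
                    SFD.val u F - SFD.val u F₀ := by ring
                rw [e5, ← SFD.val_sub]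
                unfold SFD.val
                rw [Fin.sum_univ_succ]
                have e6 : ∀ i : Fin m, F i.succ - F₀ i.succ = 0 := by
                  intro i
                  have e7 : F i.succ = g i := congrFun hg' i
                  have e8 : F₀ i.succ = g i := congrFun hg₀' i
                  rw [e7, e8, sub_self]
                have e7 : ∀ i ∈ (Finset.univ : Finset (Fin m)), algebraMap (𝓞 k) (𝓞 M)
                    (F i.succ - F₀ i.succ) * u i.succ = 0 := by
                  intro i _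
                  rw [e6, map_zero, zero_mul]
                rw [Finset.sum_eq_zero e7, add_zero]
              have e5 : ‖σ ((SFD.val u F + a : 𝓞 M) : M) - σ ((SFD.val u F₀ + a : 𝓞 M) : M)‖ =
                  v₀ ((F 0 : k) - (F₀ 0 : k)) * v₀ (c : k) := by
                rw [← map_sub]
                have e6 : ((SFD.val u F + a : 𝓞 M) : M) - ((SFD.val u F₀ + a : 𝓞 M) : M) =
                    algebraMap k M ((F 0 : k) - (F₀ 0 : k)) * algebraMap k M (c : k) := by
                  have e7 : ((SFD.val u F + a : 𝓞 M) : M) - ((SFD.val u F₀ + a : 𝓞 M) : M) =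
                      (((SFD.val u F + a) - (SFD.val u F₀ + a) : 𝓞 M) : M) := rfl
                  rw [e7, e4, hu]
                  rfl
                rw [e6, map_mul, norm_mul]
                rfl
              have e6 : ‖σ ((SFD.val u F + a : 𝓞 M) : M) - σ ((SFD.val u F₀ + a : 𝓞 M) : M)‖ ≤
                  2 * R v₀ / X := by
                refine (norm_sub_le _ _).trans ?_
                have e7 : 2 * R v₀ / X = R v₀ / X + R v₀ / X := by ring
                rw [e7]
                exact add_le_add hF.2 hF₀.2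
              rw [e5] at e6
              have e8 : v₀ ((F 0 : k) - (F₀ 0 : k)) * c₀ ≤ 2 * R v₀ / X :=
                (mul_le_mul_of_nonneg_left hc₀v (apply_nonneg v₀ _)).trans e6
              calc v₀ ((F 0 : k) - (F₀ 0 : k)) * (X * c₀) =
                  v₀ ((F 0 : k) - (F₀ 0 : k)) * c₀ * X := by ring
                _ ≤ 2 * R v₀ / X * X := mul_le_mul_of_nonneg_right e8 hX0.le
                _ = 2 * R v₀ := div_mul_cancel₀ _ hX0.ne'
            · have e3 : γ v = 1 := by
                simp only [hγ]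
                rw [if_neg hv]
              rw [e3, mul_one]
              exact e1)
          (by
            rintro F ⟨hF, hg⟩ F' ⟨hF', hg'⟩ hFF
            have e1 : F 0 - F' 0 = 0 := eq_zero_of_small (F 0 - F' 0) R' θ (by
              rw [← hd, hθd, inv_mul_le_iff₀ hW0, mul_one]
              exact le_max_right _ _) fun v => by
                have e2 := hFF () v
                have e3 : ((F 0 - F₀ 0 : 𝓞 k) : k) - ((F' 0 - F₀ 0 : 𝓞 k) : k) =
                    ((F 0 - F' 0 : 𝓞 k) : k) := by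
                  have e4 : (F 0 - F₀ 0) - (F' 0 - F₀ 0) = F 0 - F' 0 := by ring
                  rw [← e4]
                  rfl
                rwa [e3] at e2
            have e2 : F 0 = F' 0 := sub_eq_zero.1 e1
            have e3 : Fin.tail F = Fin.tail F' := by
              have g1 : Fin.tail F = g := hg
              have g2 : Fin.tail F' = g := hg'
              rw [g1, g2]
            funext i
            refine Fin.cases e2 (fun i => ?_) i
            exact congrFun e3 i)
        refine ⟨h1.1, h1.2.trans (le_of_eq ?_)⟩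
        rw [Finset.prod_const, Finset.card_univ, Fintype.card_unit, pow_one, div_pow, ← hd, hθd,
          div_inv_eq_mul])
  refine hfib.2.trans ?_
  calc ((Box k m R).ncard : ℝ) * (8 ^ d * W) ≤
      (8 ^ (d * m) * V ^ m) * (8 ^ d * (2 ^ d * (c₀⁻¹) ^ d * (V / X))) :=
        mul_le_mul hbc (mul_le_mul_of_nonneg_left hWle (by positivity)) (by positivity)
          (by positivity)
    _ = _ := by
      rw [pow_succ]
      ring

end Pool.Agent.EIN
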