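import Pool.Agent.EIN.Form
import Pool.Agent.EIN.Sieve
import Pool.Agent.EIN.Slab
import Pool.Agent.SFD.Final

/-!
# Integral points: the squarefree part of the norm of the ideal of the value is large
-/

set_option autoImplicit false

open Polynomial NumberField IntermediateField Module

namespace Pool.Agent.EIN

/-- the number of the points whose forms lie in given sets -/
theorem card_pts {k : Type} [Field k] [NumberField k] (m : ℕ)
    (E : (InfinitePlace k → ℕ) → Set (Fin m → 𝓞 k)) (N : ℕ) (K : ℝ) (hK : 0 ≤ K)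
    (hE : ∀ n, (E n).Finite ∧ ((E n).ncard : ℝ) ≤ K) (S : Set (AlgebraicClosure k))
    (hS : ∀ x ∈ S, ∃ n F, (∀ v, n v ≤ N) ∧ F ∈ E n ∧
      aeval x ((polyM F).map (algebraMap (𝓞 k) k)) = 0) :
    S.Finite ∧ (S.ncard : ℝ) ≤ ((N : ℝ) + 1) ^ Fintype.card (InfinitePlace k) * (K * m) := by
  classical
  let rts : (Fin m → 𝓞 k) → Finset (AlgebraicClosure k) := fun F =>
    ((polyM F).map (algebraMap (𝓞 k) (AlgebraicClosure k))).roots.toFinset
  have hrts : ∀ F, (rts F).card ≤ m := by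
    intro F
    refine (Multiset.toFinset_card_le _).trans ((card_roots' _).trans ?_)
    exact natDegree_map_le.trans (polyM_natDegree F).le
  set 𝒩 : Finset (InfinitePlace k → ℕ) :=
    Fintype.piFinset fun _ => Finset.range (N + 1) with h𝒩
  have hsub : S ⊆ ⋃ n ∈ 𝒩, ⋃ F ∈ (hE n).1.toFinset, (rts F : Set (AlgebraicClosure k)) := by
    intro x hx
    obtain ⟨n, F, hn, hF, hFx⟩ := hS x hx
    refine Set.mem_biUnion (x := n) ?_
      (Set.mem_biUnion (x := F) ((Set.Finite.mem_toFinset _).2 hF) ?_)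
    · rw [Finset.mem_coe, h𝒩, Fintype.mem_piFinset]
      intro v
      rw [Finset.mem_range]
      exact Nat.lt_succ_of_le (hn v)
    · show x ∈ (rts F : Set (AlgebraicClosure k))
      have hinj : Function.Injective (algebraMap (𝓞 k) (AlgebraicClosure k)) := by
        rw [IsScalarTower.algebraMap_eq (𝓞 k) k (AlgebraicClosure k)]
        exact (algebraMap k (AlgebraicClosure k)).injective.comp RingOfIntegers.coe_injective
      rw [Finset.mem_coe, Multiset.mem_toFinset, mem_roots', IsRoot.def]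
      refine ⟨(Polynomial.map_ne_zero_iff hinj).2 (polyM_monic F).ne_zero, ?_⟩
      rw [eval_map_algebraMap, ← aeval_map_algebraMap k]
      exact hFx
  have hfin : (⋃ n ∈ 𝒩, ⋃ F ∈ (hE n).1.toFinset, (rts F : Set (AlgebraicClosure k))).Finite :=
    Set.Finite.biUnion 𝒩.finite_toSet fun n _ =>
      Set.Finite.biUnion (Finset.finite_toSet _) fun F _ => (rts F).finite_toSet
  refine ⟨hfin.subset hsub, ?_⟩
  have h1 : S.ncard ≤ ∑ n ∈ 𝒩, ∑ F ∈ (hE n).1.toFinset, m := by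
    refine (Set.ncard_le_ncard hsub hfin).trans ((Finset.set_ncard_biUnion_le _ _).trans ?_)
    refine Finset.sum_le_sum fun n _ => (Finset.set_ncard_biUnion_le _ _).trans ?_
    refine Finset.sum_le_sum fun F _ => ?_
    rw [Set.ncard_coe_finset]
    exact hrts F
  have h2 : (S.ncard : ℝ) ≤ ∑ n ∈ 𝒩, ((E n).ncard : ℝ) * m := by
    refine (Nat.cast_le.2 h1).trans (le_of_eq ?_)
    push_cast
    refine Finset.sum_congr rfl fun n _ => ?_
    have h9 : (E n).ncard = (hE n).1.toFinset.card := Set.ncard_eq_toFinset_card _ (hE n).1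
    rw [Finset.sum_const, nsmul_eq_mul]
    exact congrArg (fun z : ℕ => (z : ℝ) * m) h9.symm
  refine h2.trans ?_
  have h3 : ∑ n ∈ 𝒩, ((E n).ncard : ℝ) * m ≤ ∑ n ∈ 𝒩, K * m :=
    Finset.sum_le_sum fun n _ => mul_le_mul_of_nonneg_right (hE n).2 (Nat.cast_nonneg _)
  refine h3.trans (le_of_eq ?_)
  rw [Finset.sum_const, nsmul_eq_mul, h𝒩, Fintype.card_piFinset, Finset.prod_const,
    Finset.card_range, Finset.card_univ]
  push_cast
  ring

/-- the number of the dyadic boxes -/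
theorem boxes_le (c η : ℝ) (hc : 0 ≤ c) (hη : 0 < η) (r : ℕ) : ∃ C : ℝ, 0 ≤ C ∧
    ∀ T : ℝ, 0 ≤ T → ((⌊1 + 2 * (c * T)⌋₊ : ℝ) + 1) ^ r ≤ C * Real.exp (η * (c * T)) := by
  set η' : ℝ := η / (r + 1) with hη'
  have hη'0 : 0 < η' := by positivity
  refine ⟨(2 * (1 + 1 / η')) ^ r, by positivity, fun T hT => ?_⟩
  set y : ℝ := c * T with hy
  have hy0 : 0 ≤ y := mul_nonneg hc hT
  have h1 : (⌊1 + 2 * y⌋₊ : ℝ) + 1 ≤ 2 * (1 + 1 / η') * Real.exp (η' * y) := by
    have h2 : (⌊1 + 2 * y⌋₊ : ℝ) ≤ 1 + 2 * y := Nat.floor_le (by positivity)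
    have h3 : 1 + η' * y ≤ Real.exp (η' * y) := by
      have := Real.add_one_le_exp (η' * y)
      linarith
    have h4 : 1 + y ≤ (1 + 1 / η') * (1 + η' * y) := by
      have h5 : (1 + 1 / η') * (1 + η' * y) = 1 + y + η' * y + 1 / η' := by
        field_simp
        ring
      rw [h5]
      have h6 : 0 ≤ η' * y := by positivity
      have h7 : 0 ≤ 1 / η' := by positivity
      linarith
    have h5 : (1 + 1 / η') * (1 + η' * y) ≤ (1 + 1 / η') * Real.exp (η' * y) :=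
      mul_le_mul_of_nonneg_left h3 (by positivity)
    calc (⌊1 + 2 * y⌋₊ : ℝ) + 1 ≤ 2 * (1 + y) := by linarith
      _ ≤ 2 * ((1 + 1 / η') * Real.exp (η' * y)) :=
          mul_le_mul_of_nonneg_left (h4.trans h5) two_pos.le
      _ = _ := by ring
  have h2 : ((⌊1 + 2 * y⌋₊ : ℝ) + 1) ^ r ≤ (2 * (1 + 1 / η') * Real.exp (η' * y)) ^ r :=
    pow_le_pow_left₀ (by positivity) h1 r
  refine h2.trans ?_
  rw [mul_pow, ← Real.exp_nat_mul]
  refine mul_le_mul_of_nonneg_left (Real.exp_le_exp.2 ?_) (by positivity)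
  have h3 : (r : ℝ) * (η' * y) = (r * η') * y := by ring
  rw [h3]
  refine mul_le_mul_of_nonneg_right ?_ hy0
  rw [hη', mul_div_assoc', div_le_iff₀ (by positivity)]
  have : (0 : ℝ) ≤ r := Nat.cast_nonneg _
  nlinarith

/-- an exponent of a box is small -/
theorem exponent_le (n : ℕ) (y : ℝ) (hy : 0 ≤ y) (h : (2 : ℝ) ^ n ≤ 2 * Real.exp y) :
    n ≤ ⌊1 + 2 * y⌋₊ := by
  refine Nat.le_floor ?_
  have h1 := Real.log_le_log (by positivity) h
  rw [Real.log_pow, Real.log_mul two_ne_zero (Real.exp_pos _).ne', Real.log_exp] at h1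
  have h2 := Real.log_two_gt_d9
  by_contra h3
  rw [not_le] at h3
  have h4 : ((n : ℝ) - 1) * Real.log 2 ≤ y := by
    rw [sub_mul, one_mul]
    linarith
  have h5 : 2 * y * Real.log 2 < ((n : ℝ) - 1) * Real.log 2 :=
    mul_lt_mul_of_pos_right (by linarith) (by linarith)
  nlinarith

/-- The number of the integral points of bounded height. -/
theorem int_small (k : Type) [Field k] [NumberField k] (m : ℕ) (η : ℝ)
    (hη : 0 < η) : ∃ C : ℝ, 0 ≤ C ∧ ∀ T : ℝ, 0 ≤ T →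
      {x : AlgebraicClosure k | finrank k (IntermediateField.adjoin k {x}) = m ∧
        IsIntegral ℤ x ∧ AA.height x ≤ T}.Finite ∧
      ({x : AlgebraicClosure k | finrank k (IntermediateField.adjoin k {x}) = m ∧
        IsIntegral ℤ x ∧ AA.height x ≤ T}.ncard : ℝ) ≤
        C * Real.exp ((m + η) * (finrank ℚ k * m) * T) := by
  classical
  set d := finrank ℚ k with hd
  obtain ⟨C₁, hC₁, hb⟩ := boxes_le (d * m) η (by positivity) hη (Fintype.card (InfinitePlace k))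
  set Q₀ : ℝ := 2 ^ (d * (m + 1)) with hQ₀
  refine ⟨C₁ * (8 ^ (d * m) * Q₀ ^ m * m), by positivity, fun T hT => ?_⟩
  set y : ℝ := d * m * T with hy
  have hy0 : 0 ≤ y := by positivity
  set Rn : (InfinitePlace k → ℕ) → InfinitePlace k → ℝ := fun n v => 2 ^ m * 2 ^ n v with hRn
  have hRn1 : ∀ n v, 1 ≤ Rn n v := fun n v =>
    one_le_mul_of_one_le_of_one_le (one_le_pow₀ one_le_two) (one_le_pow₀ one_le_two)
  obtain ⟨h1, h2⟩ := card_pts m (fun n => {F | F ∈ Box k m (Rn n) ∧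
    Vol (Rn n) ≤ Q₀ * Real.exp y}) ⌊1 + 2 * y⌋₊ (8 ^ (d * m) * (Q₀ * Real.exp y) ^ m)
    (by positivity) (fun n => by
      obtain ⟨g1, g2⟩ := card_box m (Rn n) (hRn1 n)
      refine ⟨g1.subset fun F hF => hF.1, ?_⟩
      by_cases hV : Vol (Rn n) ≤ Q₀ * Real.exp y
      · have g3 : {F | F ∈ Box k m (Rn n) ∧ Vol (Rn n) ≤ Q₀ * Real.exp y} = Box k m (Rn n) := by
          ext F
          exact ⟨fun h => h.1, fun h => ⟨h, hV⟩⟩
        rw [g3]
        refine g2.trans (mul_le_mul_of_nonneg_left (pow_le_pow_left₀ ?_ hV m) (by positivity))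
        exact zero_le_one.trans (one_le_vol _ (hRn1 n))
      · have g3 : {F | F ∈ Box k m (Rn n) ∧ Vol (Rn n) ≤ Q₀ * Real.exp y} = ∅ := by
          rw [Set.eq_empty_iff_forall_notMem]
          exact fun F h => hV h.2
        rw [g3, Set.ncard_empty, Nat.cast_zero]
        positivity)
    {x : AlgebraicClosure k | finrank k (IntermediateField.adjoin k {x}) = m ∧
        IsIntegral ℤ x ∧ AA.height x ≤ T} (by
      rintro x ⟨hx, hint, hT'⟩
      obtain ⟨F, n, g1, g2, g3, g4, g5⟩ := exists_box m x hx hint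
      have g6 : Real.exp (finrank ℚ k * m * AA.height x) ≤ Real.exp y :=
        Real.exp_le_exp.2 (mul_le_mul_of_nonneg_left hT' (by positivity))
      refine ⟨n, F, fun v => exponent_le _ y hy0 ((g2 v).trans
        (mul_le_mul_of_nonneg_left g6 two_pos.le)), ⟨g1, g4.trans
          (mul_le_mul_of_nonneg_left g6 (by positivity))⟩, g5⟩)
  refine ⟨h1, h2.trans ?_⟩
  have h3 := hb T hT
  have h4 : Real.exp ((m + η) * (d * m) * T) = Real.exp y ^ m * Real.exp (η * (d * m * T)) := by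
    rw [← Real.exp_nat_mul, ← Real.exp_add, hy]
    congr 1
    ring
  rw [h4]
  calc ((⌊1 + 2 * y⌋₊ : ℝ) + 1) ^ Fintype.card (InfinitePlace k) *
        (8 ^ (d * m) * (Q₀ * Real.exp y) ^ m * m) ≤
      (C₁ * Real.exp (η * (d * m * T))) * (8 ^ (d * m) * (Q₀ * Real.exp y) ^ m * m) :=
        mul_le_mul_of_nonneg_right h3 (by positivity)
    _ = _ := by
        rw [mul_pow]
        ring

/-- the value of the monic form -/
theorem value_eq {k : Type} [Field k] [NumberField k] {M : Type} [Field M] [NumberField M]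
    [Algebra k M] (m : ℕ) (u : Fin (m + 1) → 𝓞 M) (c : k) (ε : M)
    (hu : ∀ i, (u i : M) = algebraMap k M c ^ m * ε ^ (i : ℕ)) (F : Fin m → 𝓞 k) :
    ((SFD.val (fun i : Fin m => u i.castSucc) F + u (Fin.last m) : 𝓞 M) : M) =
      algebraMap k M c ^ m * aeval ε ((polyM F).map (algebraMap (𝓞 k) k)) := by
  have h0 : ((SFD.val (fun i : Fin m => u i.castSucc) F + u (Fin.last m) : 𝓞 M) : M) =
      (SFD.val (fun i : Fin m => u i.castSucc) F : M) + (u (Fin.last m) : M) := rfl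
  have h1 : (SFD.val (fun i : Fin m => u i.castSucc) F : M) =
      ∑ i : Fin m, algebraMap k M (F i : k) * (u i.castSucc : M) := by
    unfold SFD.val
    rw [RingOfIntegers.coe_eq_algebraMap, map_sum]
    refine Finset.sum_congr rfl fun i _ => ?_
    rw [map_mul]
    rfl
  rw [h0, h1, hu (Fin.last m), Fin.val_last]
  unfold polyM
  rw [Polynomial.map_add, Polynomial.map_pow, map_X, Polynomial.map_sum, map_add, map_pow,
    aeval_X, map_sum, mul_add, Finset.mul_sum, add_comm]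
  congr 1
  refine Finset.sum_congr rfl fun i _ => ?_
  rw [Polynomial.map_mul, Polynomial.map_pow, map_C, map_X, map_mul, map_pow, aeval_C, aeval_X,
    hu, Fin.val_castSucc]
  have h2 : algebraMap k M (algebraMap (𝓞 k) k (F i)) = algebraMap k M (F i : k) := rfl
  rw [h2]
  ring

/-- For most integral points the squarefree part of the norm of the ideal of the value is
large. -/
theorem good_int (k : Type) [Field k] [NumberField k] (φ : (𝓞 k)[X])
    (hφ : Irreducible (φ.map (algebraMap (𝓞 k) k))) (m : ℕ) (hm : 1 ≤ m)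
    (hφm : φ.natDegree < 2 * m) (κ : ℝ) (hκ : 0 < κ) :
    ∃ C δ : ℝ, 0 ≤ C ∧ 0 < δ ∧ ∀ T : ℝ, 0 ≤ T →
      {x : AlgebraicClosure k | finrank k (IntermediateField.adjoin k {x}) = m ∧
        IsIntegral ℤ x ∧
        AA.height x ≤ T ∧ aeval x (φ.map (algebraMap (𝓞 k) k)) ≠ 0 ∧
        Real.log (SFD.sqx φ x) < finrank ℚ (IntermediateField.adjoin k {x}) *
          ((φ.natDegree - κ) * AA.height x)}.Finite ∧
      ({x : AlgebraicClosure k | finrank k (IntermediateField.adjoin k {x}) = m ∧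
        IsIntegral ℤ x ∧
        AA.height x ≤ T ∧ aeval x (φ.map (algebraMap (𝓞 k) k)) ≠ 0 ∧
        Real.log (SFD.sqx φ x) < finrank ℚ (IntermediateField.adjoin k {x}) *
          ((φ.natDegree - κ) * AA.height x)}.ncard : ℝ) ≤
        C * Real.exp ((m - δ) * (finrank ℚ k * m) * T) := by
  classical
  set d := finrank ℚ k with hd
  have hd0 : 0 < d := finrank_pos
  have hdR : (0 : ℝ) < d := by exact_mod_cast hd0
  have hmR : (1 : ℝ) ≤ m := by exact_mod_cast hm
  have hdm : (0 : ℝ) < d * m := by positivity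
  have hdeg : (φ.map (algebraMap (𝓞 k) k)).natDegree = φ.natDegree :=
    natDegree_map_eq_of_injective RingOfIntegers.coe_injective φ
  have hn1 : 1 ≤ φ.natDegree := by
    rw [← hdeg]
    exact hφ.natDegree_pos
  obtain ⟨e, he⟩ := IsAlgClosed.exists_aeval_eq_zero (AlgebraicClosure k)
    (φ.map (algebraMap (𝓞 k) k)) (by
      intro h
      have h0 : (φ.map (algebraMap (𝓞 k) k)).natDegree = 0 := natDegree_eq_of_degree_eq_some h
      omega)
  have hex := SFD.exists_lin φ hφ e he m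
  obtain ⟨m', rfl⟩ : ∃ m', m = m' + 1 := ⟨m - 1, by omega⟩
  set M := IntermediateField.adjoin k {e} with hM
  obtain ⟨u, hu, hfr, hlin⟩ := hex
  set ε : M := AdjoinSimple.gen k e with hε
  set nφ := φ.natDegree with hnφ
  set D := finrank ℚ M with hD
  have hD0 : 0 < D := finrank_pos
  have hDR : (0 : ℝ) < D := by exact_mod_cast hD0
  have hc0 : φ.leadingCoeff ≠ 0 := by
    intro h
    rw [leadingCoeff_eq_zero] at h
    rw [hnφ, h] at hn1
    simp at hn1
  -- the constants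
  set κ' : ℝ := min (κ / (8 * D)) (1 / 2) with hκ'
  have hκ'0 : 0 < κ' := lt_min (by positivity) (by norm_num)
  have hκ'h : κ' ≤ 1 / 2 := min_le_right _ _
  have hκ'D : D * κ' ≤ κ / 8 := by
    have h1 : κ' ≤ κ / (8 * D) := min_le_left _ _
    calc D * κ' ≤ D * (κ / (8 * D)) := mul_le_mul_of_nonneg_left h1 hDR.le
      _ = κ / 8 := by field_simp
  set κ₁ : ℝ := κ / 8 with hκ₁
  have hκ₁0 : 0 < κ₁ := by positivity
  set N₁ : ℕ := (Algebra.norm ℤ φ.leadingCoeff).natAbs ^ ((m' + 1) * (nφ - 1)) with hN₁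
  have hN₁0 : N₁ ≠ 0 := by
    rw [hN₁]
    exact pow_ne_zero _ (Int.natAbs_ne_zero.2 (Algebra.norm_ne_zero_iff.2 hc0))
  have hN₁1 : (1 : ℝ) ≤ N₁ := by exact_mod_cast Nat.one_le_iff_ne_zero.2 hN₁0
  set C₀ : ℝ := Real.log N₁ with hC₀
  have hC₀0 : 0 ≤ C₀ := Real.log_nonneg hN₁1
  set h₀ : ℝ := 2 * C₀ / (d * (m' + 1 : ℕ) * κ) with hh₀
  have hh₀0 : 0 ≤ h₀ := by positivity
  -- the sieve and the slabs
  set j : ℕ := min (m' + 1) nφ with hj
  obtain ⟨C₃, δ₃, hC₃, hδ₃, hsieve⟩ := sieve_v (k := k) (fun i : Fin (m' + 1) => u i.castSucc)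
    (u (Fin.last (m' + 1))) j (min_le_left _ _)
    (hlin j ((min_le_left _ _).trans (by omega)) (min_le_right _ _)) (by rw [hfr]; omega)
  have hu0 : u (0 : Fin (m' + 1)).castSucc =
      algebraMap (𝓞 k) (𝓞 M) (φ.leadingCoeff ^ (m' + 1)) := by
    apply RingOfIntegers.ext
    have h1 := hu (0 : Fin (m' + 1)).castSucc
    rw [Fin.val_castSucc, Fin.val_zero, pow_zero, mul_one] at h1
    rw [h1, map_pow]
    rfl
  choose Cσ hCσ hslab using fun σ : M →+* ℂ => slab_v (k := k)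
    (fun i : Fin (m' + 1) => u i.castSucc) (u (Fin.last (m' + 1))) (φ.leadingCoeff ^ (m' + 1))
    (pow_ne_zero _ hc0) hu0 σ
  set δ : ℝ := min (1 / 4) (min (κ' / 2) (κ₁ * δ₃ / 2)) with hδ
  have hδ0 : 0 < δ := lt_min (by norm_num) (lt_min (by positivity) (by positivity))
  have hδ1 : δ ≤ 1 / 4 := min_le_left _ _
  have hδ2 : δ ≤ κ' / 2 := (min_le_right _ _).trans (min_le_left _ _)
  have hδ3 : δ ≤ κ₁ * δ₃ / 2 := (min_le_right _ _).trans (min_le_right _ _)
  obtain ⟨Cb, hCb, hb⟩ := boxes_le (d * (m' + 1 : ℕ)) δ hdm.le hδ0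
    (Fintype.card (InfinitePlace k))
  obtain ⟨Cs, hCs, hsm⟩ := int_small k (m' + 1) (1 / 4) (by norm_num)
  set Q₀ : ℝ := 2 ^ (d * (m' + 1 + 1)) with hQ₀
  have hQ₀0 : 0 < Q₀ := by positivity
  set Sg : ℝ := ∑ σ, Cσ σ with hSg
  have hSg0 : 0 ≤ Sg := Finset.sum_nonneg fun σ _ => (hCσ σ).le
  have hHf := SFD.bounded_finite k (m' + 1) hm h₀ hh₀0
  set Hs : Set (AlgebraicClosure k) := {x : AlgebraicClosure k |
      finrank k (IntermediateField.adjoin k {x}) = m' + 1 ∧ AA.height x ≤ h₀} with hHs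
  refine ⟨Hs.ncard + Cs + Cb * ((Sg + C₃) * Q₀ ^ (m' + 1) * (m' + 1 : ℕ)), δ, by positivity,
    hδ0, fun T hT => ?_⟩
  set y : ℝ := d * (m' + 1 : ℕ) * T with hy
  have hy0 : 0 ≤ y := by positivity
  set B : ℝ := Real.exp y with hB
  have hB0 : 0 < B := Real.exp_pos _
  have hB1 : 1 ≤ B := Real.one_le_exp hy0
  set S := {x : AlgebraicClosure k | finrank k (IntermediateField.adjoin k {x}) = m' + 1 ∧
        IsIntegral ℤ x ∧
        AA.height x ≤ T ∧ aeval x (φ.map (algebraMap (𝓞 k) k)) ≠ 0 ∧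
        Real.log (SFD.sqx φ x) < finrank ℚ (IntermediateField.adjoin k {x}) *
          ((nφ - κ) * AA.height x)} with hS
  set S₁ := {x : AlgebraicClosure k | finrank k (IntermediateField.adjoin k {x}) = m' + 1 ∧
        IsIntegral ℤ x ∧ AA.height x ≤ T / 2} with hS₁
  set S₂ := {x | x ∈ S ∧ T / 2 < AA.height x ∧ h₀ < AA.height x} with hS₂
  set X : ℝ := Real.exp (κ' * y) with hX
  have hX1 : 1 ≤ X := Real.one_le_exp (by positivity)
  have hX0 : 0 < X := lt_of_lt_of_le one_pos hX1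
  set Z : ℝ := Real.exp (κ₁ * y) with hZ
  have hZ1 : 1 ≤ Z := Real.one_le_exp (by positivity)
  have hZ0 : 0 < Z := lt_of_lt_of_le one_pos hZ1
  set Rn : (InfinitePlace k → ℕ) → InfinitePlace k → ℝ := fun n v => 2 ^ (m' + 1) * 2 ^ n v
    with hRn
  have hRn1 : ∀ n v, 1 ≤ Rn n v := fun n v =>
    one_le_mul_of_one_le_of_one_le (one_le_pow₀ one_le_two) (one_le_pow₀ one_le_two)
  set Φ : (Fin (m' + 1) → 𝓞 k) → 𝓞 M := fun F =>
    SFD.val (fun i : Fin (m' + 1) => u i.castSucc) F + u (Fin.last (m' + 1)) with hΦ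
  set E : (InfinitePlace k → ℕ) → Set (Fin (m' + 1) → 𝓞 k) := fun n =>
    {F | F ∈ Box k (m' + 1) (Rn n) ∧ (Vol (Rn n) ≤ Q₀ * B ∧ X ≤ Vol (Rn n)) ∧
      ((∃ σ : M →+* ℂ, ‖σ ((Φ F : 𝓞 M) : M)‖ ≤
        Rn n (InfinitePlace.mk (σ.comp (algebraMap k M))) / X) ∨
      (Φ F ≠ 0 ∧ SFD.Big (Ideal.absNorm (Ideal.span {Φ F})) Z))} with hE
  set K : ℝ := (Q₀ * B) ^ (m' + 1) * (Sg * X⁻¹ + C₃ * Z ^ (-δ₃)) with hK
  have hK0 : 0 ≤ K := by positivity
  have hEc : ∀ n, (E n).Finite ∧ ((E n).ncard : ℝ) ≤ K := by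
    intro n
    obtain ⟨g1, g2⟩ := card_box (m' + 1) (Rn n) (hRn1 n)
    refine ⟨g1.subset fun F hF => hF.1, ?_⟩
    by_cases hV : Vol (Rn n) ≤ Q₀ * B ∧ X ≤ Vol (Rn n)
    · have hV0 : 0 ≤ Vol (Rn n) := zero_le_one.trans (one_le_vol _ (hRn1 n))
      let Sl : (M →+* ℂ) → Set (Fin (m' + 1) → 𝓞 k) := fun σ =>
        {F | F ∈ Box k (m' + 1) (Rn n) ∧ ‖σ ((Φ F : 𝓞 M) : M)‖ ≤
          Rn n (InfinitePlace.mk (σ.comp (algebraMap k M))) / X}
      let Bg : Set (Fin (m' + 1) → 𝓞 k) := {F | F ∈ Box k (m' + 1) (Rn n) ∧ Φ F ≠ 0 ∧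
        SFD.Big (Ideal.absNorm (Ideal.span {Φ F})) Z}
      have hsub : E n ⊆ (⋃ σ ∈ (Finset.univ : Finset (M →+* ℂ)), Sl σ) ∪ Bg := by
        rintro F ⟨hF1, -, hF2 | hF2⟩
        · left
          obtain ⟨σ, hσ⟩ := hF2
          exact Set.mem_biUnion (x := σ) (Finset.mem_coe.2 (Finset.mem_univ σ)) ⟨hF1, hσ⟩
        · right
          exact ⟨hF1, hF2⟩
      have f1 : (⋃ σ ∈ (Finset.univ : Finset (M →+* ℂ)), Sl σ).Finite :=
        Set.Finite.biUnion Finset.univ.finite_toSet fun σ _ => g1.subset fun F hF => hF.1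
      have f2 : Bg.Finite := g1.subset fun F hF => hF.1
      have c1 : (E n).ncard ≤ ∑ σ : M →+* ℂ, (Sl σ).ncard + Bg.ncard :=
        (Set.ncard_le_ncard hsub (f1.union f2)).trans ((Set.ncard_union_le _ _).trans
          (Nat.add_le_add_right (Finset.set_ncard_biUnion_le _ _) _))
      have c2 : ((E n).ncard : ℝ) ≤ ∑ σ : M →+* ℂ, ((Sl σ).ncard : ℝ) + Bg.ncard := by
        exact_mod_cast c1
      have c3 : ∀ σ ∈ (Finset.univ : Finset (M →+* ℂ)), ((Sl σ).ncard : ℝ) ≤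
          Cσ σ * ((Q₀ * B) ^ (m' + 1) * X⁻¹) := by
        intro σ _
        refine (hslab σ (Rn n) X (hRn1 n) hX1 hV.2).trans ?_
        rw [div_eq_mul_inv, mul_assoc]
        refine mul_le_mul_of_nonneg_left (mul_le_mul_of_nonneg_right ?_ (by positivity))
          (hCσ σ).le
        exact pow_le_pow_left₀ hV0 hV.1 _
      have c4 : (Bg.ncard : ℝ) ≤ C₃ * (Q₀ * B) ^ (m' + 1) * Z ^ (-δ₃) := by
        refine (hsieve (Rn n) Z (hRn1 n) hZ1).trans ?_
        refine mul_le_mul_of_nonneg_right (mul_le_mul_of_nonneg_left ?_ hC₃.le) (by positivity)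
        exact pow_le_pow_left₀ hV0 hV.1 _
      have c5 := Finset.sum_le_sum c3
      rw [← Finset.sum_mul] at c5
      refine c2.trans ((add_le_add c5 c4).trans (le_of_eq ?_))
      rw [hK]
      ring
    · have g3 : E n = ∅ := by
        rw [Set.eq_empty_iff_forall_notMem]
        exact fun F h => hV h.2.1
      rw [g3, Set.ncard_empty, Nat.cast_zero]
      exact hK0
  obtain ⟨fS₂, cS₂⟩ := card_pts (m' + 1) E ⌊1 + 2 * y⌋₊ K hK0 hEc S₂ (by
    rintro x ⟨⟨hx, hint, hxT, hφx, hlog⟩, hxT2, hxh₀⟩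
    obtain ⟨F, n, g1, g2, g3, g4, g5⟩ := exists_box (m' + 1) x hx hint
    set h : ℝ := AA.height x with hh
    have hh0 : 0 < h := lt_of_le_of_lt hh₀0 hxh₀
    have g6 : Real.exp (finrank ℚ k * (m' + 1 : ℕ) * h) ≤ B :=
      Real.exp_le_exp.2 (mul_le_mul_of_nonneg_left hxT hdm.le)
    have hXV : X ≤ Vol (Rn n) := by
      refine le_trans ?_ g3
      refine Real.exp_le_exp.2 ?_
      have e1 : κ' * y ≤ 1 / 2 * y := mul_le_mul_of_nonneg_right hκ'h hy0
      have e2 : 1 / 2 * y = d * (m' + 1 : ℕ) * (T / 2) := by rw [hy]; ring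
      have e3 : (d : ℝ) * (m' + 1 : ℕ) * (T / 2) ≤ d * (m' + 1 : ℕ) * h :=
        mul_le_mul_of_nonneg_left hxT2.le hdm.le
      linarith
    refine ⟨n, F, fun v => exponent_le _ y hy0 ((g2 v).trans
      (mul_le_mul_of_nonneg_left g6 two_pos.le)), ⟨g1, ⟨g4.trans
        (mul_le_mul_of_nonneg_left g6 hQ₀0.le), hXV⟩, ?_⟩, g5⟩
    by_contra hcon
    rw [not_or, not_exists] at hcon
    obtain ⟨n1, n2⟩ := hcon
    have hval : ((Φ F : 𝓞 M) : M) = algebraMap k M (φ.leadingCoeff : k) ^ (m' + 1) *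
        aeval ε ((polyM F).map (algebraMap (𝓞 k) k)) :=
      value_eq (m' + 1) u (φ.leadingCoeff : k) ε hu F
    have hnorm := norm_eq_mul (m' + 1) (polyM F) x hx (polyM_natDegree F) (polyM_monic F) g5 φ e
      hfr he (Φ F) hval
    set N₀ : ℕ := Ideal.absNorm (SS.zid (aeval (AdjoinSimple.gen k x)
      (φ.map (algebraMap (𝓞 k) k))) φ.natDegree (AdjoinSimple.gen k x)) with hN₀
    have hΦ0 : Φ F ≠ 0 := by
      intro h0
      have h5 : ((Φ F : 𝓞 M) : M) = 0 := by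
        rw [h0]
        rfl
      rw [hval] at h5
      have hck : (φ.leadingCoeff : k) ≠ 0 := fun h9 => hc0 (RingOfIntegers.ext h9)
      rcases mul_eq_zero.1 h5 with h6 | h6
      · exact pow_ne_zero _ ((_root_.map_ne_zero _).2 hck) h6
      · refine SFD.value_ne k φ e he (m' + 1) (polyM F) x hx (polyM_natDegree F)
          (polyM_monic F).ne_zero g5 hφx ?_
        have h7 := congrArg (algebraMap M (AlgebraicClosure k)) h6
        rw [map_zero, ← aeval_algebraMap_apply] at h7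
        exact h7
    have hnΦ : (Algebra.norm ℤ (Φ F)).natAbs ≠ 0 :=
      Int.natAbs_ne_zero.2 (Algebra.norm_ne_zero_iff.2 hΦ0)
    have hN₀0 : N₀ ≠ 0 := by
      intro h9
      rw [h9, zero_mul] at hnorm
      exact hnΦ hnorm
    -- the size of the norm
    have hV1 := one_le_vol (Rn n) (hRn1 n)
    have hV0 : 0 < Vol (Rn n) := lt_of_lt_of_le one_pos hV1
    have hlow : nφ * (d * (m' + 1 : ℕ) * h) - D * (κ' * y) ≤
        Real.log (Algebra.norm ℤ (Φ F)).natAbs := by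
      have e1 := SST.prodK_norm_prod ℂ (Φ F)
      rw [Complex.norm_intCast] at e1
      have e2 : ((Algebra.norm ℤ (Φ F)).natAbs : ℝ) = ∏ σ : M →+* ℂ, ‖σ ((Φ F : 𝓞 M) : M)‖ := by
        rw [e1, Nat.cast_natAbs, Int.cast_abs]
      have e3 : ∏ σ : M →+* ℂ, (Rn n (InfinitePlace.mk (σ.comp (algebraMap k M))) / X) ≤
          ((Algebra.norm ℤ (Φ F)).natAbs : ℝ) := by
        rw [e2]
        refine Finset.prod_le_prod (fun σ _ => ?_) fun σ _ => (not_le.1 (n1 σ)).le
        exact div_nonneg (zero_le_one.trans (hRn1 n _)) hX0.le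
      have e4 : ∏ σ : M →+* ℂ, (Rn n (InfinitePlace.mk (σ.comp (algebraMap k M))) / X) =
          Vol (Rn n) ^ nφ / X ^ D := by
        rw [Finset.prod_div_distrib, Finset.prod_const, Finset.card_univ, Embeddings.card,
          prod_comp (M := M) (fun ρ : k →+* ℂ => Rn n (InfinitePlace.mk ρ)), hfr]
        rfl
      rw [e4] at e3
      have e5 := Real.log_le_log (by positivity) e3
      rw [Real.log_div (by positivity) (by positivity), Real.log_pow, Real.log_pow, hX,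
        Real.log_exp] at e5
      have e6 : (d : ℝ) * (m' + 1 : ℕ) * h ≤ Real.log (Vol (Rn n)) := by
        have e7 := Real.log_le_log (Real.exp_pos _) g3
        rwa [Real.log_exp] at e7
      have e7 : (nφ : ℝ) * (d * (m' + 1 : ℕ) * h) ≤ nφ * Real.log (Vol (Rn n)) :=
        mul_le_mul_of_nonneg_left e6 (Nat.cast_nonneg _)
      linarith
    have hsq1 : 1 ≤ SFD.sqx φ x := SS.sq_pos _
    obtain ⟨t, ht1, ht2, ht3⟩ := SS.exists_full N₀ hN₀0
    have ht0 : t ≠ 0 := by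
      rintro rfl
      exact hN₀0 ht1
    have htN : t ∣ (Algebra.norm ℤ (Φ F)).natAbs := by
      rw [hnorm]
      exact Dvd.dvd.mul_right ⟨SS.sq N₀, by rw [mul_comm]; exact ht1⟩ _
    have htZ : (t : ℝ) < Z := by
      by_contra g9
      refine n2 ⟨hΦ0, ?_⟩
      rw [Ideal.absNorm_span_singleton]
      exact SFD.big_of_dvd _ t hnΦ htN ht2 Z (not_lt.1 g9)
    have g7 : Real.log t < κ₁ * y := by
      have g5' := Real.log_lt_log (by positivity) htZ
      rwa [hZ, Real.log_exp] at g5'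
    have g8 : Real.log N₀ = Real.log (SFD.sqx φ x) + Real.log t := by
      have e6 : (N₀ : ℝ) = (SFD.sqx φ x : ℝ) * t := by
        have e7 : SFD.sqx φ x = SS.sq N₀ := rfl
        rw [e7]
        exact_mod_cast ht1
      rw [e6, Real.log_mul (by positivity) (by positivity)]
    have g9 : Real.log (Algebra.norm ℤ (Φ F)).natAbs = Real.log N₀ + C₀ := by
      rw [hnorm, hC₀]
      push_cast
      rw [Real.log_mul (by exact_mod_cast hN₀0) (by
        have : (N₁ : ℝ) ≠ 0 := by exact_mod_cast hN₁0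
        rw [hN₁] at this
        push_cast at this
        exact this), hN₁]
      push_cast
      rfl
    have hfd : (finrank ℚ (IntermediateField.adjoin k {x}) : ℝ) = d * (m' + 1 : ℕ) := by
      have := finrank_mul_finrank ℚ k (IntermediateField.adjoin k {x})
      rw [hx] at this
      exact_mod_cast this.symm
    rw [hfd] at hlog
    have q1 : y ≤ 2 * (d * (m' + 1 : ℕ) * h) := by
      have e3 : (d : ℝ) * (m' + 1 : ℕ) * (T / 2) ≤ d * (m' + 1 : ℕ) * h :=
        mul_le_mul_of_nonneg_left hxT2.le hdm.le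
      have e4 : y = 2 * (d * (m' + 1 : ℕ) * (T / 2)) := by rw [hy]; ring
      linarith
    set w : ℝ := d * (m' + 1 : ℕ) * h with hw
    have hw0 : 0 < w := by positivity
    have q2 : D * (κ' * y) ≤ κ / 8 * (2 * w) := by
      calc D * (κ' * y) = D * κ' * y := by ring
        _ ≤ κ / 8 * (2 * w) := mul_le_mul hκ'D q1 hy0 (by positivity)
    have q3 : κ₁ * y ≤ κ / 8 * (2 * w) := mul_le_mul_of_nonneg_left q1 hκ₁0.le
    have q4 : C₀ < κ / 2 * w := by
      have e1 : d * (m' + 1 : ℕ) * κ * h₀ = 2 * C₀ := by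
        rw [hh₀]
        field_simp
      have e2 : d * (m' + 1 : ℕ) * κ * h₀ < d * (m' + 1 : ℕ) * κ * h :=
        mul_lt_mul_of_pos_left hxh₀ (by positivity)
      have e3 : d * (m' + 1 : ℕ) * κ * h = κ * w := by rw [hw]; ring
      linarith
    have q5 : (d : ℝ) * (m' + 1 : ℕ) * ((nφ - κ) * h) = nφ * w - κ * w := by rw [hw]; ring
    rw [q5] at hlog
    linarith)
  obtain ⟨fS₁, cS₁⟩ := hsm (T / 2) (by positivity)
  have hsub : S ⊆ Hs ∪ (S₁ ∪ S₂) := by
    intro x hx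
    by_cases h1 : AA.height x ≤ h₀
    · exact Or.inl ⟨hx.1, h1⟩
    · right
      by_cases h2 : AA.height x ≤ T / 2
      · exact Or.inl ⟨hx.1, hx.2.1, h2⟩
      · exact Or.inr ⟨hx, not_le.1 h2, not_le.1 h1⟩
  have hfin : (Hs ∪ (S₁ ∪ S₂)).Finite := hHf.union (fS₁.union fS₂)
  refine ⟨hfin.subset hsub, ?_⟩
  have hcard : (S.ncard : ℝ) ≤ Hs.ncard + (S₁.ncard + S₂.ncard) := by
    have h1 : S.ncard ≤ Hs.ncard + (S₁.ncard + S₂.ncard) :=
      (Set.ncard_le_ncard hsub hfin).trans ((Set.ncard_union_le _ _).trans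
        (Nat.add_le_add_left (Set.ncard_union_le _ _) _))
    exact_mod_cast h1
  set P : ℝ := Real.exp (((m' + 1 : ℕ) - δ) * (d * (m' + 1 : ℕ)) * T) with hP
  have hP1 : 1 ≤ P := by
    refine Real.one_le_exp ?_
    have : (0 : ℝ) ≤ (m' + 1 : ℕ) - δ := by linarith
    positivity
  have e1 : (Hs.ncard : ℝ) ≤ Hs.ncard * P := le_mul_of_one_le_right (Nat.cast_nonneg _) hP1
  have e2 : (S₁.ncard : ℝ) ≤ Cs * P := by
    refine cS₁.trans (mul_le_mul_of_nonneg_left (Real.exp_le_exp.2 ?_) hCs)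
    have h1 : (((m' + 1 : ℕ) : ℝ) + 1 / 4) * (d * (m' + 1 : ℕ)) * (T / 2) =
        ((((m' + 1 : ℕ) : ℝ) + 1 / 4) / 2) * (d * (m' + 1 : ℕ)) * T := by ring
    rw [h1]
    refine mul_le_mul_of_nonneg_right (mul_le_mul_of_nonneg_right ?_ hdm.le) hT
    linarith
  have e3 : (S₂.ncard : ℝ) ≤ Cb * ((Sg + C₃) * Q₀ ^ (m' + 1) * (m' + 1 : ℕ)) * P := by
    refine cS₂.trans ?_
    have h1 := hb T hT
    have h2 : K ≤ (Sg + C₃) * Q₀ ^ (m' + 1) * Real.exp (((m' + 1 : ℕ) - 2 * δ) * y) := by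
      have k1 : X⁻¹ ≤ Real.exp (-(2 * δ) * y) := by
        rw [hX, ← Real.exp_neg]
        refine Real.exp_le_exp.2 ?_
        have : 2 * δ * y ≤ κ' * y := mul_le_mul_of_nonneg_right (by linarith) hy0
        linarith
      have k2 : Z ^ (-δ₃) ≤ Real.exp (-(2 * δ) * y) := by
        rw [hZ, ← Real.exp_mul]
        refine Real.exp_le_exp.2 ?_
        have : 2 * δ * y ≤ κ₁ * δ₃ * y := mul_le_mul_of_nonneg_right (by linarith) hy0
        linarith
      have k3 : Sg * X⁻¹ + C₃ * Z ^ (-δ₃) ≤ (Sg + C₃) * Real.exp (-(2 * δ) * y) := by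
        rw [add_mul]
        exact add_le_add (mul_le_mul_of_nonneg_left k1 hSg0)
          (mul_le_mul_of_nonneg_left k2 hC₃.le)
      have k4 : Real.exp (((m' + 1 : ℕ) - 2 * δ) * y) =
          B ^ (m' + 1) * Real.exp (-(2 * δ) * y) := by
        rw [hB, ← Real.exp_nat_mul, ← Real.exp_add]
        congr 1
        ring
      rw [hK, k4, mul_pow]
      calc Q₀ ^ (m' + 1) * B ^ (m' + 1) * (Sg * X⁻¹ + C₃ * Z ^ (-δ₃)) ≤
          Q₀ ^ (m' + 1) * B ^ (m' + 1) * ((Sg + C₃) * Real.exp (-(2 * δ) * y)) :=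
            mul_le_mul_of_nonneg_left k3 (by positivity)
        _ = _ := by ring
    have h3 : P = Real.exp (((m' + 1 : ℕ) - 2 * δ) * y) * Real.exp (δ * y) := by
      rw [hP, ← Real.exp_add, hy]
      congr 1
      ring
    have h4 : Real.exp (δ * (d * (m' + 1 : ℕ) * T)) = Real.exp (δ * y) := by rw [hy]
    rw [h4] at h1
    calc ((⌊1 + 2 * y⌋₊ : ℝ) + 1) ^ Fintype.card (InfinitePlace k) * (K * (m' + 1 : ℕ)) ≤
        (Cb * Real.exp (δ * y)) * ((Sg + C₃) * Q₀ ^ (m' + 1) *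
          Real.exp (((m' + 1 : ℕ) - 2 * δ) * y) * (m' + 1 : ℕ)) :=
          mul_le_mul h1 (mul_le_mul_of_nonneg_right h2 (Nat.cast_nonneg _)) (by positivity)
            (by positivity)
      _ = _ := by
          rw [h3]
          ring
  calc (S.ncard : ℝ) ≤ Hs.ncard + (S₁.ncard + S₂.ncard) := hcard
    _ ≤ Hs.ncard * P + (Cs * P + Cb * ((Sg + C₃) * Q₀ ^ (m' + 1) * (m' + 1 : ℕ)) * P) :=
        add_le_add e1 (add_le_add e2 e3)
    _ = _ := by ring

end Pool.Agent.EIN
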