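import Pool.Agent.EIN.BadX
import Pool.Agent.COV.GenI
import Pool.Agent.HD.LowerProj

/-!
# The number of the integral points, from below
-/

set_option autoImplicit false

open Polynomial NumberField IntermediateField Module

namespace Pool.Agent.EIN

private theorem exists_irr_finite (F : Type) [Field F] [Finite F] (n : ℕ) (hn : 0 < n) :
    ∃ f : F[X], Irreducible f ∧ f.Monic ∧ f.natDegree = n := by
  obtain ⟨p, hp⟩ := CharP.exists F
  have hpp : Fact p.Prime := ⟨CharP.char_is_prime F p⟩
  have hn' : NeZero n := ⟨hn.ne'⟩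
  obtain ⟨α, hα⟩ := Field.exists_primitive_element F (FiniteField.Extension F p n)
  have hint : IsIntegral F α := Algebra.IsIntegral.isIntegral α
  refine ⟨minpoly F α, minpoly.irreducible hint, minpoly.monic hint, ?_⟩
  rw [← IntermediateField.adjoin.finrank hint, hα, IntermediateField.finrank_top',
    FiniteField.finrank_extension]

theorem polyM_coeff {k : Type} [Field k] [NumberField k] {m : ℕ} (F : Fin m → 𝓞 k) (i : Fin m) :
    (polyM F).coeff (i : ℕ) = F i := by
  unfold polyM
  rw [coeff_add, coeff_X_pow, if_neg (by have := i.2; omega), zero_add, finsetSum_coeff]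
  rw [Finset.sum_eq_single i]
  · rw [coeff_C_mul, coeff_X_pow, if_pos rfl, mul_one]
  · intro b _ hb
    rw [coeff_C_mul, coeff_X_pow, if_neg (fun h => hb (Fin.ext h.symm)), mul_zero]
  · intro h
    exact absurd (Finset.mem_univ i) h

/-- monic polynomials which are irreducible by a congruence -/
theorem exists_irrM (k : Type) [Field k] [NumberField k] (m : ℕ) (hm : 1 ≤ m) : ∃ l : ℕ, 0 < l ∧
    ∃ y₀ : Fin m → 𝓞 k, ∀ y : Fin m → 𝓞 k,
      (∀ i, ∃ z : 𝓞 k, y i = y₀ i + (l : 𝓞 k) * z) →
      Irreducible ((polyM y).map (algebraMap (𝓞 k) k)) := by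
  have hpm : (Ideal.span {(2 : ℤ)}).IsMaximal :=
    PrincipalIdealRing.isMaximal_of_irreducible Int.prime_two.irreducible
  obtain ⟨P, hP, hP2⟩ := Ideal.exists_maximal_ideal_liesOver_of_isIntegral
    (Ideal.span {(2 : ℤ)}) (S := 𝓞 k)
  have hpP : (2 : 𝓞 k) ∈ P := by
    have h1 : (2 : ℤ) ∈ P.under ℤ := by
      rw [← hP2.over]
      exact Ideal.mem_span_singleton_self _
    rw [Ideal.under_def, Ideal.mem_comap] at h1
    simpa using h1
  have hPbot : P ≠ ⊥ := by
    rintro rfl
    rw [Ideal.mem_bot] at hpP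
    exact two_ne_zero hpP
  have hfin : Finite (𝓞 k ⧸ P) := P.finiteQuotientOfFreeOfNeBot hPbot
  let _ : Field (𝓞 k ⧸ P) := Ideal.Quotient.field P
  set φ : 𝓞 k →+* 𝓞 k ⧸ P := Ideal.Quotient.mk P with hφ
  have hφp : φ (2 : 𝓞 k) = 0 := Ideal.Quotient.eq_zero_iff_mem.2 hpP
  obtain ⟨f, hf1, hf2, hf3⟩ := exists_irr_finite (𝓞 k ⧸ P) m (by omega)
  have hsurj : Function.Surjective φ := Ideal.Quotient.mk_surjective
  choose y₀ hy₀ using fun i : Fin m => hsurj (f.coeff i)
  refine ⟨2, two_pos, y₀, fun y hy => ?_⟩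
  have hφy : ∀ i, φ (y i) = f.coeff i := by
    intro i
    obtain ⟨z, hz⟩ := hy i
    rw [hz, map_add, map_mul, Nat.cast_ofNat, hφp, zero_mul, add_zero, hy₀]
  have hmap : (polyM y).map φ = f := by
    conv_rhs => rw [hf2.as_sum, hf3]
    unfold polyM
    rw [← Fin.sum_univ_eq_sum_range (fun i => C (f.coeff i) * X ^ i), Polynomial.map_add,
      Polynomial.map_pow, map_X, Polynomial.map_sum]
    congr 1
    refine Finset.sum_congr rfl fun i _ => ?_
    rw [Polynomial.map_mul, map_C, Polynomial.map_pow, map_X, hφy]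
  have h1 : Irreducible (polyM y) :=
    Monic.irreducible_of_irreducible_map φ _ (polyM_monic y) (by rw [hmap]; exact hf1)
  exact ((polyM_monic y).irreducible_iff_irreducible_map_fraction_map (K := k)).1 h1

/-- The number of the integral points of degree `m`, from below. -/
theorem lower_x (k : Type) [Field k] [NumberField k] (m : ℕ) (hm : 1 ≤ m) :
    ∃ c T₀ : ℝ, 0 < c ∧ ∀ T : ℝ, T₀ ≤ T →
      c * Real.exp (m * (finrank ℚ k * m) * T) ≤
        ({x : AlgebraicClosure k | finrank k (IntermediateField.adjoin k {x}) = m ∧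
          IsIntegral ℤ x ∧ AA.height x ≤ T}.ncard : ℝ) := by
  classical
  obtain ⟨n, rfl⟩ : ∃ n, m = n + 1 := ⟨m - 1, by omega⟩
  obtain ⟨l, hl, y₀, hirr⟩ := exists_irrM k (n + 1) hm
  obtain ⟨c, R₁, hc, hR₁, hcount⟩ := AAL.le_card_box k (∅ : Finset (Fin (n + 1))) 0
    (Finset.notMem_empty _) l hl y₀ 1 one_pos le_rfl
  obtain ⟨Cs, _, hsm⟩ := int_small k (n + 1) 1 one_pos
  set d := finrank ℚ k with hd
  have hd0 : (0 : ℝ) < d := Nat.cast_pos.2 finrank_pos
  set s : ℝ := ((n + 1 : ℕ) : ℝ) with hs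
  have hs1 : 1 ≤ s := by
    rw [hs]
    push_cast
    have : (0 : ℝ) ≤ n := Nat.cast_nonneg _
    linarith
  have hs0 : 0 < s := by linarith
  refine ⟨c * (s + 1) ^ (-(d * s)), max 0 (Real.log ((s + 1) * R₁) / s), by positivity,
    fun T hT => ?_⟩
  have hT0 : 0 ≤ T := (le_max_left _ _).trans hT
  have hT1 : Real.log ((s + 1) * R₁) / s ≤ T := (le_max_right _ _).trans hT
  set R : ℝ := Real.exp (s * T) / (s + 1) with hR
  have hR1 : R₁ ≤ R := by
    rw [hR, le_div_iff₀ (by positivity), mul_comm]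
    rw [div_le_iff₀ hs0] at hT1
    calc (s + 1) * R₁ = Real.exp (Real.log ((s + 1) * R₁)) :=
          (Real.exp_log (by positivity)).symm
      _ ≤ _ := Real.exp_le_exp.2 (by linarith)
  have hR1' : 1 ≤ R := hR₁.trans hR1
  have hR0 : 0 < R := by linarith
  set Bx := AAL.box (∅ : Finset (Fin (n + 1))) 0 l y₀ 1 R with hBx
  obtain ⟨hSf, -⟩ := hsm T hT0
  set S := {x : AlgebraicClosure k | finrank k (IntermediateField.adjoin k {x}) = n + 1 ∧
          IsIntegral ℤ x ∧ AA.height x ≤ T} with hS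
  -- a root of every form
  have hroot : ∀ y : Fin (n + 1) → 𝓞 k, ∃ x : AlgebraicClosure k,
      aeval x ((polyM y).map (algebraMap (𝓞 k) k)) = 0 := by
    intro y
    refine IsAlgClosed.exists_aeval_eq_zero (AlgebraicClosure k) _ ?_
    rw [(polyM_monic y).degree_map]
    intro h0
    have h0' : (polyM y).degree = ((0 : ℕ) : WithBot ℕ) := h0
    have := natDegree_eq_of_degree_eq_some h0'
    rw [polyM_natDegree] at this
    omega
  choose f hf using hroot
  have hmin : ∀ y ∈ Bx, minpoly k (f y) = (polyM y).map (algebraMap (𝓞 k) k) := by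
    intro y hy
    exact (minpoly.eq_of_irreducible_of_monic (hirr y hy.1) (hf y)
      ((polyM_monic y).map _)).symm
  have hmaps : ∀ y ∈ Bx, f y ∈ S := by
    intro y hy
    have hint : IsIntegral k (f y) := Algebra.IsIntegral.isIntegral _
    have h1 : finrank k (IntermediateField.adjoin k {f y}) = n + 1 := by
      rw [IntermediateField.adjoin.finrank hint, hmin y hy, (polyM_monic y).natDegree_map,
        polyM_natDegree]
    have h2 : IsIntegral ℤ (f y) := by
      have g1 : IsIntegral (𝓞 k) (f y) := by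
        refine ⟨polyM y, polyM_monic y, ?_⟩
        have g2 := hf y
        rw [aeval_map_algebraMap] at g2
        exact g2
      exact isIntegral_trans _ g1
    refine ⟨h1, h2, ?_⟩
    have h3 := AAL.relHeight_le (n + 1) (polyM y) (f y) h1 (polyM_natDegree y)
      (polyM_monic y).ne_zero (hf y)
    have h4 := AAL.lgM_le (n + 1) (polyM y) (f y) h1 (polyM_natDegree y)
      (polyM_monic y).ne_zero (hf y) R hR0 (fun i ρ => by
        rcases lt_trichotomy i (n + 1) with hi | hi | hi
        · have e1 := polyM_coeff y ⟨i, hi⟩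
          have e2 : (polyM y).coeff i = y ⟨i, hi⟩ := e1
          rw [e2]
          have e3 := hy.2.1 ⟨i, hi⟩ (InfinitePlace.mk ρ)
          rw [if_neg (Finset.notMem_empty _)] at e3
          exact e3
        · have e1 : (polyM y).coeff i = 1 := by
            rw [hi]
            have := (polyM_monic y).coeff_natDegree
            rwa [polyM_natDegree] at this
          rw [e1]
          have e2 : ((1 : 𝓞 k) : k) = 1 := rfl
          rw [e2, map_one, norm_one]
          exact hR1'
        · rw [coeff_eq_zero_of_natDegree_lt (by rw [polyM_natDegree]; exact hi)]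
          have e2 : ((0 : 𝓞 k) : k) = 0 := rfl
          rw [e2, map_zero, norm_zero]
          exact hR0.le)
    have h5 := h3.trans (Real.exp_le_exp.2 h4)
    rw [SFD.relHeight_eq (f y) (n + 1) h1, Real.exp_le_exp] at h5
    have h6 : (s + 1) * R = Real.exp (s * T) := by
      rw [hR, mul_comm, div_mul_cancel₀ _ (by positivity)]
    rw [h6, Real.log_exp, mul_assoc] at h5
    have h7 : s * AA.height (f y) ≤ s * T := le_of_mul_le_mul_left h5 hd0
    exact le_of_mul_le_mul_left h7 hs0
  have hinj : Set.InjOn f Bx := by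
    intro y hy y' hy' hyy
    have h1 : (polyM y).map (algebraMap (𝓞 k) k) = (polyM y').map (algebraMap (𝓞 k) k) := by
      rw [← hmin y hy, ← hmin y' hy', hyy]
    have h2 := Polynomial.map_injective _ RingOfIntegers.coe_injective h1
    funext i
    rw [← polyM_coeff y i, ← polyM_coeff y' i, h2]
  have h1 : (Bx.ncard : ℝ) ≤ S.ncard := by
    exact_mod_cast Set.ncard_le_ncard_of_injOn f hmaps hinj hSf
  refine le_trans ?_ h1
  refine le_trans (le_of_eq ?_) (hcount R hR1)
  have h2 : (d : ℝ) * (n + 1 - ((∅ : Finset (Fin (n + 1))).card : ℝ) +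
      1 * ((∅ : Finset (Fin (n + 1))).card : ℝ)) = d * s := by
    rw [hs]
    push_cast
    simp
  rw [h2, hR, Real.div_rpow (Real.exp_pos _).le (by positivity), ← Real.exp_mul,
    Real.rpow_neg (by positivity), div_eq_mul_inv]
  have h3 : s * T * (d * s) = s * (d * s) * T := by ring
  rw [h3]
  ring

/-- The number of the integral points of a curve, from below. -/
theorem lower_pts (k : Type) [Field k] [NumberField k] (G : k[X][X]) (hG : G.Monic)
    (hG1 : 1 ≤ G.natDegree) (m : ℕ) (hm : 1 ≤ m) :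
    ∃ c T₀ : ℝ, 0 < c ∧ ∀ T : ℝ, T₀ ≤ T →
      {P ∈ COV.Pts k G m T | IsIntegral ℤ P.1}.Finite ∧
      c * Real.exp (m * (finrank ℚ k * m) * T) ≤
        ({P ∈ COV.Pts k G m T | IsIntegral ℤ P.1}.ncard : ℝ) := by
  classical
  obtain ⟨c, T₀, hc, h⟩ := lower_x k m hm
  refine ⟨c, max 0 T₀, hc, fun T hT => ?_⟩
  have hT0 : 0 ≤ T := (le_max_left _ _).trans hT
  have hT1 : T₀ ≤ T := (le_max_right _ _).trans hT
  have hfU := SFD.bounded_finite k m hm T hT0
  obtain ⟨fV, -⟩ := COV.pts_fibre k G hG m T {P ∈ COV.Pts k G m T | IsIntegral ℤ P.1}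
    (fun P hP => hP.1) _ hfU fun P hP => ⟨hP.1.2.1, hP.1.2.2⟩
  refine ⟨fV, ?_⟩
  -- a point above every abscissa
  have hex : ∀ x : AlgebraicClosure k, ∃ y : AlgebraicClosure k,
      (G.map (mapRingHom (algebraMap k (AlgebraicClosure k)))).evalEval x y = 0 := by
    intro x
    set g : (AlgebraicClosure k)[X] :=
      G.map (aeval x : k[X] →ₐ[k] AlgebraicClosure k).toRingHom with hg
    obtain ⟨y, hy⟩ := IsAlgClosed.exists_root g (by
      rw [hg, hG.degree_map]
      intro h0
      have := natDegree_eq_zero_iff_degree_le_zero.2 h0.le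
      omega)
    refine ⟨y, ?_⟩
    rw [COV.evalEval_eq, eval₂_eq_eval_map]
    exact hy
  choose y hy using hex
  have hmaps : ∀ x ∈ {x : AlgebraicClosure k |
      finrank k (IntermediateField.adjoin k {x}) = m ∧ IsIntegral ℤ x ∧ AA.height x ≤ T},
      (x, y x) ∈ {P ∈ COV.Pts k G m T | IsIntegral ℤ P.1} := by
    rintro x ⟨h1, h2, h3⟩
    exact ⟨⟨hy x, h1, h3⟩, h2⟩
  have h1 := Set.ncard_le_ncard_of_injOn (fun x => (x, y x)) hmaps
    (fun x _ x' _ h => congrArg Prod.fst h) fV
  exact (h T hT1).trans (by exact_mod_cast h1)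

end Pool.Agent.EIN
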