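import Pool.Agent.SS.Divis

/-!
# The norm of the value of a monic form
-/

set_option autoImplicit false

open Polynomial NumberField IntermediateField Module Pool.Agent.AA

namespace Pool.Agent.EIN

/-- a polynomial of minimal degree over the algebraic closure -/
private theorem split {k : Type} [Field k] [NumberField k] (f : k[X]) (e : AlgebraicClosure k)
    (hdeg : finrank k (IntermediateField.adjoin k {e}) = f.natDegree) (hfe : aeval e f = 0) :
    f.map (algebraMap k (AlgebraicClosure k)) =
      C (algebraMap k (AlgebraicClosure k) f.leadingCoeff) *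
        ∏ τ : IntermediateField.adjoin k {e} →ₐ[k] AlgebraicClosure k,
          (X - C (τ (AdjoinSimple.gen k e))) := by
  have hint : IsIntegral k e := Algebra.IsIntegral.isIntegral e
  have hmin : f = C f.leadingCoeff * minpoly k e := by
    refine Polynomial.eq_leadingCoeff_mul_of_monic_of_dvd_of_natDegree_le (minpoly.monic hint)
      (minpoly.dvd k e hfe) ?_
    rw [← IntermediateField.adjoin.finrank hint, hdeg]
  have htop : IntermediateField.adjoin k {AdjoinSimple.gen k e} =
      (⊤ : IntermediateField k (IntermediateField.adjoin k {e})) := by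
    apply IntermediateField.lift_injective (IntermediateField.adjoin k {e})
    rw [IntermediateField.lift_adjoin_simple, IntermediateField.lift_top,
      AdjoinSimple.coe_gen]
  have h1 := RefW.denIdeal_minpoly (AdjoinSimple.gen k e) htop
  rw [IntermediateField.minpoly_gen] at h1
  conv_lhs => rw [hmin]
  rw [Polynomial.map_mul, map_C, h1]

/-- the resultant identity -/
private theorem res_eq {k : Type} [Field k] [NumberField k] (F f : k[X])
    (x e : AlgebraicClosure k) (hF : finrank k (IntermediateField.adjoin k {x}) = F.natDegree)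
    (hFx : aeval x F = 0)
    (hf : finrank k (IntermediateField.adjoin k {e}) = f.natDegree) (hfe : aeval e f = 0) :
    f.leadingCoeff ^ F.natDegree * Algebra.norm k (aeval (AdjoinSimple.gen k e) F) =
      (-1) ^ (F.natDegree * f.natDegree) * (F.leadingCoeff ^ f.natDegree *
        Algebra.norm k (aeval (AdjoinSimple.gen k x) f)) := by
  classical
  have hfdx : FiniteDimensional k (IntermediateField.adjoin k {x}) := inferInstance
  have hfde : FiniteDimensional k (IntermediateField.adjoin k {e}) := inferInstance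
  have h1 := split F x hF hFx
  have h2 := split f e hf hfe
  apply (algebraMap k (AlgebraicClosure k)).injective
  rw [map_mul, map_mul, map_mul, map_pow, map_pow, map_pow, map_neg, map_one,
    Algebra.norm_eq_prod_embeddings k (AlgebraicClosure k),
    Algebra.norm_eq_prod_embeddings k (AlgebraicClosure k)]
  have h3 : ∀ τ : IntermediateField.adjoin k {e} →ₐ[k] AlgebraicClosure k,
      τ (aeval (AdjoinSimple.gen k e) F) =
        algebraMap k (AlgebraicClosure k) F.leadingCoeff *
          ∏ σ : IntermediateField.adjoin k {x} →ₐ[k] AlgebraicClosure k,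
            (τ (AdjoinSimple.gen k e) - σ (AdjoinSimple.gen k x)) := by
    intro τ
    rw [← Polynomial.aeval_algHom_apply, ← eval_map_algebraMap, h1, eval_mul, eval_C, eval_prod]
    simp only [eval_sub, eval_X, eval_C]
  have h4 : ∀ σ : IntermediateField.adjoin k {x} →ₐ[k] AlgebraicClosure k,
      σ (aeval (AdjoinSimple.gen k x) f) =
        algebraMap k (AlgebraicClosure k) f.leadingCoeff *
          ∏ τ : IntermediateField.adjoin k {e} →ₐ[k] AlgebraicClosure k,
            (σ (AdjoinSimple.gen k x) - τ (AdjoinSimple.gen k e)) := by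
    intro σ
    rw [← Polynomial.aeval_algHom_apply, ← eval_map_algebraMap, h2, eval_mul, eval_C, eval_prod]
    simp only [eval_sub, eval_X, eval_C]
  rw [Finset.prod_congr rfl fun τ _ => h3 τ, Finset.prod_congr rfl fun σ _ => h4 σ,
    Finset.prod_mul_distrib, Finset.prod_mul_distrib, Finset.prod_const, Finset.prod_const,
    Finset.card_univ, Finset.card_univ, AlgHom.card, AlgHom.card, hF, hf]
  have h5 : ∏ τ : IntermediateField.adjoin k {e} →ₐ[k] AlgebraicClosure k,
      ∏ σ : IntermediateField.adjoin k {x} →ₐ[k] AlgebraicClosure k,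
        (τ (AdjoinSimple.gen k e) - σ (AdjoinSimple.gen k x)) =
      (-1) ^ (F.natDegree * f.natDegree) *
      ∏ σ : IntermediateField.adjoin k {x} →ₐ[k] AlgebraicClosure k,
        ∏ τ : IntermediateField.adjoin k {e} →ₐ[k] AlgebraicClosure k,
        (σ (AdjoinSimple.gen k x) - τ (AdjoinSimple.gen k e)) := by
    rw [Finset.prod_comm]
    have h6 : ∀ (σ : IntermediateField.adjoin k {x} →ₐ[k] AlgebraicClosure k)
        (τ : IntermediateField.adjoin k {e} →ₐ[k] AlgebraicClosure k),
        τ (AdjoinSimple.gen k e) - σ (AdjoinSimple.gen k x) =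
          (-1) * (σ (AdjoinSimple.gen k x) - τ (AdjoinSimple.gen k e)) := by
      intro σ τ
      ring
    rw [Finset.prod_congr rfl fun σ _ => Finset.prod_congr rfl fun τ _ => h6 σ τ]
    simp only [Finset.prod_mul_distrib, Finset.prod_const, Finset.card_univ, AlgHom.card, hF, hf]
    rw [← pow_mul, mul_comm f.natDegree]
  rw [h5]
  ring

/-- The norm of the value of a monic form. -/
theorem norm_eq_mul {k : Type} [Field k] [NumberField k] (m : ℕ) (F : (𝓞 k)[X])
    (x : AlgebraicClosure k) (hx : finrank k (IntermediateField.adjoin k {x}) = m)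
    (hF : F.natDegree = m) (hFm : F.Monic) (hFx : aeval x (F.map (algebraMap (𝓞 k) k)) = 0)
    (f : (𝓞 k)[X]) (e : AlgebraicClosure k)
    (he : finrank k (IntermediateField.adjoin k {e}) = f.natDegree)
    (hfe : aeval e (f.map (algebraMap (𝓞 k) k)) = 0)
    (Φ : 𝓞 (IntermediateField.adjoin k {e}))
    (hΦ : (Φ : IntermediateField.adjoin k {e}) =
      algebraMap k (IntermediateField.adjoin k {e}) (f.leadingCoeff : k) ^ m *
        aeval (AdjoinSimple.gen k e) (F.map (algebraMap (𝓞 k) k))) :
    (Algebra.norm ℤ Φ).natAbs =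
      Ideal.absNorm (SS.zid (aeval (AdjoinSimple.gen k x) (f.map (algebraMap (𝓞 k) k)))
      f.natDegree (AdjoinSimple.gen k x)) *
        (Algebra.norm ℤ f.leadingCoeff).natAbs ^ (m * (f.natDegree - 1)) := by
  have hF0 : F ≠ 0 := hFm.ne_zero
  set n : ℕ := f.natDegree with hn
  have hinj : Function.Injective (algebraMap (𝓞 k) k) := RingOfIntegers.coe_injective
  have hlcf : (f.map (algebraMap (𝓞 k) k)).leadingCoeff = (f.leadingCoeff : k) :=
    leadingCoeff_map_of_injective hinj f
  have hlcF : (F.map (algebraMap (𝓞 k) k)).leadingCoeff = (F.leadingCoeff : k) :=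
    leadingCoeff_map_of_injective hinj F
  have hdf : (f.map (algebraMap (𝓞 k) k)).natDegree = n := natDegree_map_eq_of_injective hinj f
  have hdF : (F.map (algebraMap (𝓞 k) k)).natDegree = m := by
    rw [natDegree_map_eq_of_injective hinj F, hF]
  -- `e` has degree at least one
  have hn1 : 1 ≤ n := by
    rw [← he]
    exact finrank_pos
  -- the resultant
  have hres := res_eq (F.map (algebraMap (𝓞 k) k)) (f.map (algebraMap (𝓞 k) k)) x e
    (by rw [hdF]; exact hx) hFx (by rw [hdf]; exact he) hfe
  rw [hdf, hdF, hlcf, hlcF] at hres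
  have hres2 := congrArg (fun z : k => |Algebra.norm ℚ z|) hres
  simp only [map_mul, map_pow, abs_mul, abs_pow] at hres2
  rw [Algebra.norm_norm, Algebra.norm_norm] at hres2
  have hneg : |Algebra.norm ℚ (-1 : k)| = 1 := by
    have h1 : |Algebra.norm ℚ (-1 : k)| ^ 2 = 1 := by
      rw [← abs_pow, ← map_pow]
      simp
    have h2 := abs_nonneg (Algebra.norm ℚ (-1 : k))
    nlinarith
  -- the three norms
  obtain ⟨u, hu⟩ := SS.den_dvd m F x hx hF hF0 hFx
  have hu1 : u = 1 := by
    rw [hFm.leadingCoeff, map_one, Int.natAbs_one] at hu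
    exact Nat.eq_one_of_mul_eq_one_left hu.symm
  have hz := SS.absNorm_zid (AdjoinSimple.gen k x) n
    (aeval (AdjoinSimple.gen k x) (f.map (algebraMap (𝓞 k) k))) (by
      intro j hj
      obtain ⟨t, ht⟩ := SS.eval_integral n
        (f.map (algebraMap (𝓞 k) (𝓞 (IntermediateField.adjoin k {x})))) (natDegree_map_le) j hj
      refine ⟨t, ?_⟩
      rw [ht]
      congr 1
      rw [aeval_map_algebraMap, aeval_map_algebraMap])
  have hNF : |Algebra.norm ℚ (F.leadingCoeff : k)| =
      ((Algebra.norm ℤ F.leadingCoeff).natAbs : ℚ) := by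
    rw [← Algebra.coe_norm_int, Nat.cast_natAbs, Int.cast_abs]
  have hNf : |Algebra.norm ℚ (f.leadingCoeff : k)| =
      ((Algebra.norm ℤ f.leadingCoeff).natAbs : ℚ) := by
    rw [← Algebra.coe_norm_int, Nat.cast_natAbs, Int.cast_abs]
  have hNΦ : ((Algebra.norm ℤ Φ).natAbs : ℚ) =
      |Algebra.norm ℚ (f.leadingCoeff : k)| ^ (m * n) *
        |Algebra.norm ℚ (aeval (AdjoinSimple.gen k e) (F.map (algebraMap (𝓞 k) k)))| := by
    rw [Nat.cast_natAbs, Int.cast_abs, Algebra.coe_norm_int, hΦ, map_mul, abs_mul, map_pow,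
      abs_pow]
    congr 1
    rw [← Algebra.norm_norm (R := ℚ) (S := k), Algebra.norm_algebraMap, map_pow, abs_pow, he,
      ← pow_mul, mul_comm]
  have hfin : ((Algebra.norm ℤ Φ).natAbs : ℚ) =
      ((Ideal.absNorm (SS.zid (aeval (AdjoinSimple.gen k x) (f.map (algebraMap (𝓞 k) k))) n
        (AdjoinSimple.gen k x)) * ((Algebra.norm ℤ f.leadingCoeff).natAbs ^ (m * (n - 1)) *
          u ^ n) : ℕ) : ℚ) := by
    push_cast
    rw [hNΦ, hz, ← hNf]
    have e1 : m * n = m * (n - 1) + m := by
      obtain ⟨n', hn'⟩ : ∃ n', n = n' + 1 := ⟨n - 1, by omega⟩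
      rw [hn']
      simp
      ring
    rw [e1, pow_add]
    have h5 : |Algebra.norm ℚ (F.leadingCoeff : k)| =
        (Ideal.absNorm (RefW.denIdealOf (AdjoinSimple.gen k x)) : ℚ) * u := by
      rw [hNF, hu]
      push_cast
      rfl
    rw [h5, hneg, one_pow, one_mul] at hres2
    linear_combination |Algebra.norm ℚ (f.leadingCoeff : k)| ^ (m * (n - 1)) * hres2
  rw [hu1, one_pow, mul_one] at hfin
  exact_mod_cast hfin

end Pool.Agent.EIN
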