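import Pool.Agent.EIN.BadX
import Pool.Agent.COV.GenI

/-!
# Covers of the line: almost all integral points have a large discriminant
-/

set_option autoImplicit false

open Polynomial NumberField IntermediateField Module

namespace Pool.Agent.EIN

/-- The number of the points with a small discriminant or with a small degree. -/
theorem viol_fac_gen (k : Type) [Field k] [NumberField k] {r : ℕ} (fs : Fin r → (𝓞 k)[X])
    (hirr : ∀ i, Irreducible ((fs i).map (algebraMap (𝓞 k) k)))
    (hco : ∀ i j, i ≠ j → IsCoprime ((fs i).map (algebraMap (𝓞 k) k))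
      ((fs j).map (algebraMap (𝓞 k) k))) (m : ℕ) (e : Fin r → ℕ)
    (he : ∀ i, 1 ≤ e i) (G : k[X][X])
    (hG : G.Monic) (μ H a b c : Fin r → k[X][X])
    (hμ : ∀ i, G ∣ μ i ^ e i - C ((fs i).map (algebraMap (𝓞 k) k)) * H i)
    (hone : ∀ i, G ∣ a i * C ((fs i).map (algebraMap (𝓞 k) k)) + b i * μ i + c i * H i - 1)
    (A' : ℝ) (Ω : AlgebraicClosure k → Prop) (N : ℝ)
    (hbad : ∀ κ h₀ : ℝ, 0 < κ → 0 ≤ h₀ → ∃ C δ : ℝ, 0 ≤ C ∧ 0 < δ ∧ ∀ T : ℝ, 0 ≤ T →
      {x : AlgebraicClosure k | Ω x ∧ finrank k (IntermediateField.adjoin k {x}) = m ∧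
        AA.height x ≤ T ∧ ¬ COV.GoodI fs A' κ h₀ x}.Finite ∧
      ({x : AlgebraicClosure k | Ω x ∧ finrank k (IntermediateField.adjoin k {x}) = m ∧
        AA.height x ≤ T ∧ ¬ COV.GoodI fs A' κ h₀ x}.ncard : ℝ) ≤
        C * Real.exp ((N - δ) * (finrank ℚ k * m) * T)) (A B : ℝ)
    (hA : A < ∑ i, (1 - 1 / (e i : ℝ)) * ((fs i).natDegree : ℝ) + A') :
    ∃ C δ : ℝ, 0 < δ ∧ ∀ T : ℝ, 0 ≤ T →
      {P ∈ COV.Pts k G m T | Ω P.1 ∧ (HD.logDiscr P ≤ A * AA.height P.1 + B ∨
        ¬ ∀ i, m * e i ∣ finrank k (IntermediateField.adjoin k {P.1, P.2}))}.Finite ∧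
      ({P ∈ COV.Pts k G m T | Ω P.1 ∧ (HD.logDiscr P ≤ A * AA.height P.1 + B ∨
        ¬ ∀ i, m * e i ∣ finrank k (IntermediateField.adjoin k {P.1, P.2}))}.ncard : ℝ) ≤
        C * Real.exp ((N - δ) * (finrank ℚ k * m) * T) := by
  classical
  obtain ⟨C₃, hC₃, hpt⟩ := COV.disc_point_ideal fs (fun i => by
    intro h
    exact (hirr i).ne_zero (by rw [h, Polynomial.map_zero])) hco e he G hG μ H a b c hμ hone
  have hα : ∀ i, 0 ≤ 1 - 1 / (e i : ℝ) ∧ 1 - 1 / (e i : ℝ) ≤ 1 := by
    intro i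
    have h2 : (1 : ℝ) ≤ e i := by exact_mod_cast he i
    have h3 : 1 / (e i : ℝ) ≤ 1 := by
      rw [div_le_one (by linarith)]
      exact h2
    have h4 : 0 ≤ 1 / (e i : ℝ) := by positivity
    constructor <;> linarith
  set M : ℝ := ∑ i, (1 - 1 / (e i : ℝ)) * ((fs i).natDegree : ℝ) with hM
  set gap : ℝ := M + A' - A with hgap
  have hgap0 : 0 < gap := by rw [hgap]; linarith
  set κ : ℝ := min (1 / 2) (gap / (2 * (r + 1))) with hκ
  have hκ0 : 0 < κ := lt_min (by norm_num) (by positivity)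
  have hκh : κ ≤ 1 / 2 := min_le_left _ _
  have hκr : κ * r ≤ gap / 2 := by
    have h1 : κ ≤ gap / (2 * (r + 1)) := min_le_right _ _
    have h0 : (0 : ℝ) ≤ r := Nat.cast_nonneg _
    calc κ * r ≤ gap / (2 * (r + 1)) * r := mul_le_mul_of_nonneg_right h1 h0
      _ ≤ gap / 2 := by
          rw [div_mul_eq_mul_div, div_le_div_iff₀ (by positivity) two_pos]
          nlinarith
  set h₀ : ℝ := 2 * (|B| + C₃) / gap + 2 * C₃ with hh₀
  have hh₀0 : 0 ≤ h₀ := by positivity
  obtain ⟨C, δ, hC, hδ, h⟩ := hbad κ h₀ hκ0 hh₀0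
  refine ⟨C * G.natDegree, δ, hδ, fun T hT => ?_⟩
  obtain ⟨fU, cU⟩ := h T hT
  set U : Set (AlgebraicClosure k) := {x : AlgebraicClosure k |
    Ω x ∧ finrank k (IntermediateField.adjoin k {x}) = m ∧
        AA.height x ≤ T ∧ ¬ COV.GoodI fs A' κ h₀ x} with hU
  obtain ⟨fV, cV⟩ := COV.pts_fibre k G hG m T
    {P ∈ COV.Pts k G m T | Ω P.1 ∧ (HD.logDiscr P ≤ A * AA.height P.1 + B ∨
        ¬ ∀ i, m * e i ∣ finrank k (IntermediateField.adjoin k {P.1, P.2}))}
    (fun P hP => hP.1) U fU (by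
      rintro P ⟨⟨hP1, hP2, hP3⟩, hP0, hP4⟩
      refine ⟨hP0, hP2, hP3, fun hgood => ?_⟩
      obtain ⟨hh, hdx, g2'⟩ := hgood
      choose cc hcc g2 using g2'
      obtain ⟨g1, gdeg⟩ := hpt P hP1 cc hcc
      have hl0 : (0 : ℝ) < finrank ℚ (IntermediateField.adjoin k {P.1}) := by
        have : 0 < finrank ℚ (IntermediateField.adjoin k {P.1}) := finrank_pos
        exact_mod_cast this
      have hl1 : (1 : ℝ) ≤ finrank ℚ (IntermediateField.adjoin k {P.1}) := by
        have : 0 < finrank ℚ (IntermediateField.adjoin k {P.1}) := finrank_pos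
        exact_mod_cast this
      have hhn : 0 ≤ AA.height P.1 := SFD.height_nonneg _
      rcases hP4 with hP4 | hP4
      · have g3 : (finrank ℚ (IntermediateField.adjoin k {P.1}) : ℝ) *
            ((M - κ * r) * AA.height P.1) ≤
            ∑ i, (1 - 1 / (e i : ℝ)) * Real.log (Ideal.absNorm (cc i)) := by
          have e1 : ∀ i ∈ (Finset.univ : Finset (Fin r)),
              (finrank ℚ (IntermediateField.adjoin k {P.1}) : ℝ) *
              (((1 - 1 / (e i : ℝ)) * (fs i).natDegree - κ) * AA.height P.1) ≤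
              (1 - 1 / (e i : ℝ)) * Real.log (Ideal.absNorm (cc i)) := by
            intro i _
            have e2 := mul_le_mul_of_nonneg_left (g2 i) (hα i).1
            have e3 : (1 - 1 / (e i : ℝ)) * κ ≤ κ := by
              have := mul_le_mul_of_nonneg_right (hα i).2 hκ0.le
              linarith
            have e4 : (finrank ℚ (IntermediateField.adjoin k {P.1}) : ℝ) *
              (((1 - 1 / (e i : ℝ)) * (fs i).natDegree - κ) * AA.height P.1) ≤
              (finrank ℚ (IntermediateField.adjoin k {P.1}) : ℝ) *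
              (((1 - 1 / (e i : ℝ)) * (fs i).natDegree - (1 - 1 / (e i : ℝ)) * κ) *
                AA.height P.1) := by
              refine mul_le_mul_of_nonneg_left (mul_le_mul_of_nonneg_right (by linarith) hhn)
                hl0.le
            refine e4.trans (le_trans (le_of_eq ?_) e2)
            ring
          refine le_trans (le_of_eq ?_) (Finset.sum_le_sum e1)
          rw [← Finset.mul_sum, ← Finset.sum_mul, Finset.sum_sub_distrib, Finset.sum_const,
            Finset.card_univ, Fintype.card_fin, nsmul_eq_mul, mul_comm κ]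
        have g4 : (M - κ * r) * AA.height P.1 ≤
            (∑ i, (1 - 1 / (e i : ℝ)) * Real.log (Ideal.absNorm (cc i))) /
              finrank ℚ (IntermediateField.adjoin k {P.1}) := by
          rw [le_div_iff₀ hl0, mul_comm]
          exact g3
        have g6 : κ * r * AA.height P.1 ≤ gap / 2 * AA.height P.1 :=
          mul_le_mul_of_nonneg_right hκr hhn
        have g7 : gap * AA.height P.1 = M * AA.height P.1 + A' * AA.height P.1 -
            A * AA.height P.1 := by
          rw [hgap]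
          ring
        have g8 : gap / 2 * AA.height P.1 ≤ |B| + C₃ := by
          have e1 : (M - κ * r) * AA.height P.1 = M * AA.height P.1 -
            κ * r * AA.height P.1 := by ring
          have := le_abs_self B
          linarith
        have g9 : gap / 2 * (2 * (|B| + C₃) / gap) = |B| + C₃ := by
          field_simp
        have g10 : gap / 2 * (2 * (|B| + C₃) / gap) < gap / 2 * AA.height P.1 := by
          refine mul_lt_mul_of_pos_left ?_ (by positivity)
          have : 0 ≤ 2 * C₃ := by positivity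
          linarith
        linarith
      · apply hP4
        intro i
        have hdi : (1 : ℝ) ≤ (fs i).natDegree := by
          have h1 : 0 < ((fs i).map (algebraMap (𝓞 k) k)).natDegree := (hirr i).natDegree_pos
          rw [natDegree_map_eq_of_injective RingOfIntegers.coe_injective] at h1
          exact_mod_cast h1
        have h1 : finrank ℚ (IntermediateField.adjoin k {P.1}) * C₃ <
            Real.log (Ideal.absNorm (cc i)) := by
          refine lt_of_lt_of_le ?_ (g2 i)
          refine mul_lt_mul_of_pos_left ?_ hl0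
          have e1 : 2 * C₃ < AA.height P.1 := by
            have : 0 ≤ 2 * (|B| + C₃) / gap := by positivity
            linarith
          have e2 : (1 : ℝ) / 2 * AA.height P.1 ≤ ((fs i).natDegree - κ) * AA.height P.1 :=
            mul_le_mul_of_nonneg_right (by linarith) hhn
          linarith
        have h2 := gdeg i h1
        rwa [hP2] at h2)
  refine ⟨fV, cV.trans ?_⟩
  calc (U.ncard : ℝ) * G.natDegree ≤
      (C * Real.exp ((N - δ) * (finrank ℚ k * m) * T)) * G.natDegree :=
        mul_le_mul_of_nonneg_right cU (Nat.cast_nonneg _)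
    _ = _ := by ring

/-- **The number of the points with a small discriminant or with a small degree.** -/
theorem viol_int (k : Type) [Field k] [NumberField k] {r : ℕ} (f : Fin r → k[X])
    (hirr : ∀ i, Irreducible (f i)) (hass : ∀ i j, i ≠ j → ¬ Associated (f i) (f j)) (m : ℕ)
    (hm : 1 ≤ m) (hdeg : ∀ i, (f i).natDegree < 2 * m)
    (e : Fin r → ℕ) (he : ∀ i, 1 ≤ e i)
    (G : k[X][X]) (hG : G.Monic) (μ H : Fin r → k[X][X])
    (hμ : ∀ i, G ∣ μ i ^ e i - C (f i) * H i)
    (hone : ∀ i, Ideal.span {C (f i), μ i, H i, G} = ⊤)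
    (A' : ℝ)
    (hA' : A' = 0 ∨ (0 < A' ∧ A' * HD.ex (finrank ℚ k) m < m - 1)) (A B : ℝ)
    (hA : A < ∑ i, (1 - 1 / (e i : ℝ)) * ((f i).natDegree : ℝ) + A') :
    ∃ C δ : ℝ, 0 < δ ∧ ∀ T : ℝ, 0 ≤ T →
      {P ∈ COV.Pts k G m T | IsIntegral ℤ P.1 ∧ (HD.logDiscr P ≤ A * AA.height P.1 + B ∨
        ¬ ∀ i, m * e i ∣ finrank k (IntermediateField.adjoin k {P.1, P.2}))}.Finite ∧
      ({P ∈ COV.Pts k G m T | IsIntegral ℤ P.1 ∧ (HD.logDiscr P ≤ A * AA.height P.1 + B ∨
        ¬ ∀ i, m * e i ∣ finrank k (IntermediateField.adjoin k {P.1, P.2}))}.ncard : ℝ) ≤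
        C * Real.exp ((m - δ) * (finrank ℚ k * m) * T) := by
  classical
  choose β F hβ hF using fun i => SFD.exists_int (f i)
  have hβk : ∀ i, (β i : k) ≠ 0 := fun i h => hβ i (RingOfIntegers.coe_eq_zero_iff.1 h)
  have hunit : ∀ i, IsUnit (C (β i : k) : k[X]) := fun i =>
    isUnit_C.2 (isUnit_iff_ne_zero.2 (hβk i))
  have hassF : ∀ i, Associated (f i) ((F i).map (algebraMap (𝓞 k) k)) := fun i => by
    rw [hF i]
    exact (associated_isUnit_mul_left_iff (hunit i)).2 (Associated.refl _) |>.symm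
  have hFi : ∀ i, Irreducible ((F i).map (algebraMap (𝓞 k) k)) := fun i =>
    (hassF i).irreducible (hirr i)
  have hnat : ∀ i, (F i).natDegree = (f i).natDegree := fun i => by
    rw [← natDegree_map_eq_of_injective RingOfIntegers.coe_injective (F i), hF i,
      natDegree_C_mul (hβk i)]
  have hrep : ∀ i, ∃ a b c : k[X][X], G ∣ a * C (f i) + b * μ i + c * H i - 1 := by
    intro i
    have h1 := (Ideal.eq_top_iff_one _).1 (hone i)
    rw [Ideal.mem_span_insert] at h1
    obtain ⟨a, z, hz, h1⟩ := h1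
    rw [Ideal.mem_span_insert] at hz
    obtain ⟨b, z', hz', h2⟩ := hz
    rw [Ideal.mem_span_insert] at hz'
    obtain ⟨c, z'', hz'', h3⟩ := hz'
    rw [Ideal.mem_span_singleton'] at hz''
    obtain ⟨d, h4⟩ := hz''
    refine ⟨a, b, c, -d, ?_⟩
    rw [h1, h2, h3, ← h4]
    ring
  choose a b c habc using hrep
  have hCC : ∀ i, (C (C (β i : k)⁻¹) : k[X][X]) * C (C (β i : k)) = 1 := fun i => by
    rw [← C_mul, ← C_mul, inv_mul_cancel₀ (hβk i), C_1, C_1]
  have h := viol_fac_gen k F hFi (fun i j hij => ?_) m e he G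
    hG μ (fun i => C (C (β i : k)⁻¹) * H i) (fun i => C (C (β i : k)⁻¹) * a i) b
    (fun i => C (C (β i : k)) * c i) (fun i => ?_) (fun i => ?_) A'
    (fun x => IsIntegral ℤ x) m (fun κ h₀ hκ hh₀ => bad_x_int k F hFi m hm
      (fun i => by rw [hnat]; exact hdeg i) A' hA' κ h₀ hκ hh₀) A B (by
      simp only [hnat]
      exact hA)
  · exact h
  · rw [(hFi i).coprime_iff_not_dvd]
    intro hdvd
    have h1 : Associated ((F i).map (algebraMap (𝓞 k) k)) ((F j).map (algebraMap (𝓞 k) k)) :=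
      (hFi i).associated_of_dvd (hFi j) hdvd
    exact hass i j hij ((hassF i).trans (h1.trans (hassF j).symm))
  · rw [hF i, C_mul]
    have e1 : μ i ^ e i - C (C (β i : k)) * C (f i) * (C (C (β i : k)⁻¹) * H i) =
        μ i ^ e i - (C (C (β i : k)⁻¹) * C (C (β i : k))) * (C (f i) * H i) := by ring
    rw [e1, hCC, one_mul]
    exact hμ i
  · rw [hF i, C_mul]
    have e1 : C (C (β i : k)⁻¹) * a i * (C (C (β i : k)) * C (f i)) + b i * μ i +
        C (C (β i : k)) * c i * (C (C (β i : k)⁻¹) * H i) - 1 =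
        (C (C (β i : k)⁻¹) * C (C (β i : k))) * (a i * C (f i)) + b i * μ i +
        (C (C (β i : k)⁻¹) * C (C (β i : k))) * (c i * H i) - 1 := by ring
    rw [e1, hCC, one_mul, one_mul]
    exact habc i

end Pool.Agent.EIN
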